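import Mathlib

/-! Kohn Laplacian on (0,1)-forms of a five-dimensional CR manifold whose underlying real analytic
manifold is the torus `ℝ^5/ℤ^5`. -/

open scoped ContDiff ComplexConjugate

noncomputable section

namespace Pool.Agent.Helper112.Kohn

/-- `ℝ^5`, the universal cover of the torus `𝕋 = ℝ^5/ℤ^5`. -/
abbrev X : Type := Fin 5 → ℝ

/-- `f` is `ℤ^5`-periodic, i.e. `f` is (the lift to `ℝ^5` of) a function on the torus `ℝ^5/ℤ^5`. -/
def Per {α : Type*} (f : X → α) : Prop :=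
  ∀ (x : X) (k : Fin 5 → ℤ), f (fun i => x i + k i) = f x

/-- the partial derivative `∂f/∂x_i` of a complex valued function. -/
def pd (i : Fin 5) (f : X → ℂ) (x : X) : ℂ := fderiv ℝ f x (Pi.single i 1)

/-- complex vector fields `V = ∑ V_i ∂/∂x_i` with complex valued coefficients. -/
abbrev VF : Type := X → Fin 5 → ℂ

/-- `V f = ∑ V_i ∂f/∂x_i`. -/
def app (V : VF) (f : X → ℂ) (x : X) : ℂ := ∑ i, V x i * pd i f x

/-- the complex conjugate vector field. -/
def bar (V : VF) : VF := fun x i => conj (V x i)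

/-- the Lie bracket `[V,W]` of two complex vector fields. -/
def brk (V W : VF) : VF := fun x i => app V (fun y => W y i) x - app W (fun y => V y i) x

/-- the matrix whose rows are `L₁, L₂, L̄₁, L̄₂, T` at the point `x`. -/
def frame (L : Fin 2 → VF) (T : VF) (x : X) : Matrix (Fin 5) (Fin 5) ℂ :=
  Matrix.of ![L 0 x, L 1 x, bar (L 0) x, bar (L 1) x, T x]

/-- `L₁, L₂` are real analytic complex vector fields on the torus spanning a CR structure
`T^{1,0}` of hypersurface type (complex rank two, `T^{1,0} ∩ T^{0,1} = 0`, involutive because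
`[L₁, L₂] = 0`), and `T` is a real, real analytic vector field transversal to
`T^{1,0} ⊕ T^{0,1}`. -/
structure IsCR (L : Fin 2 → VF) (T : VF) : Prop where
  periodic : (∀ j, Per (L j)) ∧ Per T
  analytic : (∀ j, ContDiff ℝ ω (L j)) ∧ ContDiff ℝ ω T
  real : ∀ x i, (T x i).im = 0
  basis : ∀ x, (frame L T x).det ≠ 0
  invol : ∀ x, brk (L 0) (L 1) x = 0

/-- `lam` is the matrix of the Levi form: `[L_j, L̄_k] ≡ i lam_{jk} T` modulo
`T^{1,0} ⊕ T^{0,1}`. -/
def IsLevi (L : Fin 2 → VF) (T : VF) (lam : X → Matrix (Fin 2) (Fin 2) ℂ) : Prop :=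
  ∀ x j k, brk (L j) (bar (L k)) x - (Complex.I * lam x j k) • T x ∈
    Submodule.span ℂ {L 0 x, L 1 x, bar (L 0) x, bar (L 1) x}

/-- the volume density (with respect to `dx`) of the Hermitian metric on the complexified tangent
bundle for which `L₁, L₂, L̄₁, L̄₂, T` is a unitary frame. -/
def vol (L : Fin 2 → VF) (T : VF) (x : X) : ℝ := ‖(frame L T x).det‖⁻¹

/-- the formal `L²`-adjoint of the operator `V` on functions, with respect to the measure
`r dx`: `V^* f = - r⁻¹ ∑ ∂_i (r conj(V_i) f)`. -/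
def adj (r : X → ℝ) (V : VF) (f : X → ℂ) (x : X) : ℂ :=
  -(r x : ℂ)⁻¹ * ∑ i, pd i (fun y => (r y : ℂ) * conj (V y i) * f y) x

/-- (0,1)-forms `u = u₁ ω̄₁ + u₂ ω̄₂`, where `ω̄₁, ω̄₂` is the frame dual to `L̄₁, L̄₂`. -/
abbrev Form : Type := Fin 2 → X → ℂ

/-- `∂̄_b u = (L̄₁ u₂ - L̄₂ u₁) ω̄₁ ∧ ω̄₂` (recall `[L̄₁, L̄₂] = 0`); this is the coefficient. -/
def dbar (L : Fin 2 → VF) (u : Form) (x : X) : ℂ :=
  app (bar (L 0)) (u 1) x - app (bar (L 1)) (u 0) x

/-- `∂̄_b^* u = L̄₁^* u₁ + L̄₂^* u₂`, the formal adjoint of `f ↦ (L̄₁ f) ω̄₁ + (L̄₂ f) ω̄₂`. -/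
def dstar (L : Fin 2 → VF) (T : VF) (u : Form) (x : X) : ℂ :=
  adj (vol L T) (bar (L 0)) (u 0) x + adj (vol L T) (bar (L 1)) (u 1) x

/-- the Kohn Laplacian `□_b u = ∂̄_b ∂̄_b^* u + ∂̄_b^* ∂̄_b u` on (0,1)-forms, where
`∂̄_b^* (w ω̄₁ ∧ ω̄₂) = - (L̄₂^* w) ω̄₁ + (L̄₁^* w) ω̄₂`. -/
def box (L : Fin 2 → VF) (T : VF) (u : Form) : Form :=
  ![fun x => app (bar (L 0)) (dstar L T u) x - adj (vol L T) (bar (L 1)) (dbar L u) x,
    fun x => app (bar (L 1)) (dstar L T u) x + adj (vol L T) (bar (L 0)) (dbar L u) x]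

/-- `C^∞` (0,1)-forms on the torus. -/
def SmoothForm (u : Form) : Prop := ∀ j, Per (u j) ∧ ContDiff ℝ ∞ (u j)

/-- real analytic (0,1)-forms on the torus. -/
def AnalyticForm (u : Form) : Prop := ∀ j, Per (u j) ∧ ContDiff ℝ ω (u j)

end Pool.Agent.Helper112.Kohn
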