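import Pool.Agent.Helper112.Kohn.Defs

open scoped ContDiff ComplexConjugate Real
open MeasureTheory

noncomputable section

namespace Pool.Agent.Helper112.Kohn

/-- `L₁ = ∂_s - i γ'(s)·∂_y` with `γ(s) = (cos 2πs, sin 2πs)` and `L₂ = ∂_p - i ∂_q + β ∂_{y₁}`
(coordinates `x = (s, y₁, y₂, p, q)`). -/
def LL (β : ℝ) : Fin 2 → VF :=
  ![fun x => ![1, Complex.I * ((2 * π * Real.sin (2 * π * x 0) : ℝ) : ℂ),
      -(Complex.I * ((2 * π * Real.cos (2 * π * x 0) : ℝ) : ℂ)), 0, 0],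
    fun _ => ![0, (β : ℂ), 0, 1, -Complex.I]]

/-- the transversal field `T = -(cos 2πs ∂_{y₁} + sin 2πs ∂_{y₂})`. -/
def TT : VF := fun x =>
  ![0, -((Real.cos (2 * π * x 0) : ℝ) : ℂ), -((Real.sin (2 * π * x 0) : ℝ) : ℂ), 0, 0]

/-- the CR functions `exp(2π(k(cos 2πs - 1) + i(k y₁ + l p)))`. -/
def EE (k : ℕ) (l : ℤ) (x : X) : ℂ :=
  Complex.exp (2 * π * (((k : ℝ) * (Real.cos (2 * π * x 0) - 1) : ℝ) +
    Complex.I * ((k * x 1 + l * x 3 : ℝ) : ℂ)))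

/-- series of the functions `EE`. -/
def SS (k : ℕ → ℕ) (l : ℕ → ℤ) (c : ℕ → ℂ) (x : X) : ℂ := ∑' j, c j * EE (k j) (l j) x

end Pool.Agent.Helper112.Kohn
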