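import Pool.Agent.Helper112.Kohn.Ex

open scoped ContDiff ComplexConjugate Real ComplexOrder
open MeasureTheory

noncomputable section

namespace Pool.Agent.Helper112.Kohn

theorem pd_of_zero {k : Fin 5} (hk : k ≠ 0) {g : ℝ → ℂ} (hg : Differentiable ℝ g) (x : X) :
    pd k (fun y => g (y 0)) x = 0 := by
  unfold pd
  have h1 : HasFDerivAt (fun y : X => y 0) (ContinuousLinearMap.proj (R := ℝ) (φ := fun _ => ℝ) (0 : Fin 5)) x :=
    (ContinuousLinearMap.proj (R := ℝ) (φ := fun _ => ℝ) (0 : Fin 5)).hasFDerivAt
  have h2 : HasFDerivAt (fun y : X => g (y 0))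
      ((fderiv ℝ g (x 0)).comp (ContinuousLinearMap.proj (R := ℝ) (φ := fun _ => ℝ) (0 : Fin 5))) x :=
    (hg (x 0)).hasFDerivAt.comp x h1
  rw [h2.fderiv]
  simp [Pi.single_apply, hk.symm]

theorem pd_const (k : Fin 5) (c : ℂ) (x : X) : pd k (fun _ => c) x = 0 := by
  unfold pd
  simp

theorem sin_diff : Differentiable ℝ (fun t : ℝ => Complex.I * ((2 * π * Real.sin (2 * π * t) : ℝ) : ℂ)) := by
  have h : Differentiable ℝ (fun t : ℝ => 2 * π * Real.sin (2 * π * t)) := by fun_prop
  exact (Complex.ofRealCLM.differentiable.comp h).const_mul _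

theorem cos_diff : Differentiable ℝ
    (fun t : ℝ => -(Complex.I * ((2 * π * Real.cos (2 * π * t) : ℝ) : ℂ))) := by
  have h : Differentiable ℝ (fun t : ℝ => 2 * π * Real.cos (2 * π * t)) := by fun_prop
  exact ((Complex.ofRealCLM.differentiable.comp h).const_mul _).neg

theorem sin_per (t : ℝ) (k : ℤ) : Real.sin (2 * π * (t + k)) = Real.sin (2 * π * t) := by
  rw [show 2 * π * (t + k) = 2 * π * t + k * (2 * π) by ring, Real.sin_add_int_mul_two_pi]

theorem cos_per (t : ℝ) (k : ℤ) : Real.cos (2 * π * (t + k)) = Real.cos (2 * π * t) := by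
  rw [show 2 * π * (t + k) = 2 * π * t + k * (2 * π) by ring, Real.cos_add_int_mul_two_pi]

theorem sin_cd : ContDiff ℝ ω (fun x : X => Real.sin (2 * π * x 0)) :=
  Real.contDiff_sin.comp (contDiff_const.mul (contDiff_apply ℝ ℝ (0 : Fin 5)))

theorem cos_cd : ContDiff ℝ ω (fun x : X => Real.cos (2 * π * x 0)) :=
  Real.contDiff_cos.comp (contDiff_const.mul (contDiff_apply ℝ ℝ (0 : Fin 5)))

theorem isCR (β : ℝ) : IsCR (LL β) TT := by
  refine ⟨⟨?_, ?_⟩, ⟨?_, ?_⟩, ?_, ?_, ?_⟩
  · intro j x k
    fin_cases j
    · simp only [LL, Fin.zero_eta, Matrix.cons_val_zero, sin_per, cos_per]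
    · simp only [LL, Fin.mk_one, Matrix.cons_val_one, Matrix.cons_val_zero]
  · intro x k
    simp only [TT, sin_per, cos_per]
  · intro j
    fin_cases j
    · show ContDiff ℝ ω (fun x : X => ![1, Complex.I * ((2 * π * Real.sin (2 * π * x 0) : ℝ) : ℂ),
        -(Complex.I * ((2 * π * Real.cos (2 * π * x 0) : ℝ) : ℂ)), 0, 0])
      rw [contDiff_pi]
      intro i
      fin_cases i
      · exact contDiff_const
      · exact contDiff_const.mul (Complex.ofRealCLM.contDiff.comp (contDiff_const.mul sin_cd))
      · exact (contDiff_const.mul (Complex.ofRealCLM.contDiff.comp (contDiff_const.mul cos_cd))).neg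
      · exact contDiff_const
      · exact contDiff_const
    · show ContDiff ℝ ω (fun _ : X => ![0, (β : ℂ), 0, 1, -Complex.I])
      exact contDiff_const
  · show ContDiff ℝ ω (fun x : X => ![0, -((Real.cos (2 * π * x 0) : ℝ) : ℂ),
      -((Real.sin (2 * π * x 0) : ℝ) : ℂ), 0, 0])
    rw [contDiff_pi]
    intro i
    fin_cases i
    · exact contDiff_const
    · exact (Complex.ofRealCLM.contDiff.comp cos_cd).neg
    · exact (Complex.ofRealCLM.contDiff.comp sin_cd).neg
    · exact contDiff_const
    · exact contDiff_const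
  · intro x i
    fin_cases i
    · simp [TT]
    · show (-((Real.cos (2 * π * x 0) : ℝ) : ℂ)).im = 0
      rw [Complex.neg_im, Complex.ofReal_im, neg_zero]
    · show (-((Real.sin (2 * π * x 0) : ℝ) : ℂ)).im = 0
      rw [Complex.neg_im, Complex.ofReal_im, neg_zero]
    · simp [TT]
    · simp [TT]
  · intro x
    have hcs : ((Real.cos (2 * π * x 0) : ℝ) : ℂ) ^ 2 + ((Real.sin (2 * π * x 0) : ℝ) : ℂ) ^ 2 = 1 := by
      rw [← Complex.ofReal_pow, ← Complex.ofReal_pow, ← Complex.ofReal_add, Real.cos_sq_add_sin_sq,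
        Complex.ofReal_one]
    set c : ℂ := ((Real.cos (2 * π * x 0) : ℝ) : ℂ) with hc
    set s : ℂ := ((Real.sin (2 * π * x 0) : ℝ) : ℂ) with hs
    have hcc : conj c = c := Complex.conj_ofReal _
    have hss : conj s = s := Complex.conj_ofReal _
    have hfr : frame (LL β) TT x = Matrix.of ![![1, Complex.I * (2 * π * s), -(Complex.I * (2 * π * c)), 0, 0],
        ![0, (β : ℂ), 0, 1, -Complex.I],
        ![1, -(Complex.I * (2 * π * s)), Complex.I * (2 * π * c), 0, 0],
        ![0, (β : ℂ), 0, 1, Complex.I],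
        ![0, -c, -s, 0, 0]] := by
      have e0 : LL β 0 x = ![1, Complex.I * (2 * π * s), -(Complex.I * (2 * π * c)), 0, 0] := by
        show ![1, Complex.I * ((2 * π * Real.sin (2 * π * x 0) : ℝ) : ℂ),
          -(Complex.I * ((2 * π * Real.cos (2 * π * x 0) : ℝ) : ℂ)), 0, 0] = _
        rw [Complex.ofReal_mul, Complex.ofReal_mul, Complex.ofReal_mul (2 * π), Complex.ofReal_mul,
          Complex.ofReal_ofNat]
      have e1 : LL β 1 x = ![0, (β : ℂ), 0, 1, -Complex.I] := rfl
      have e2 : bar (LL β 0) x = ![1, -(Complex.I * (2 * π * s)), Complex.I * (2 * π * c), 0, 0] := by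
        have h2 : conj (2 : ℂ) = 2 := by
          have := Complex.conj_ofReal 2
          simpa using this
        have hpi : conj (π : ℂ) = π := Complex.conj_ofReal _
        funext i
        show conj (LL β 0 x i) = _
        rw [e0]
        fin_cases i
        · exact map_one _
        · show conj (Complex.I * (2 * π * s)) = -(Complex.I * (2 * π * s))
          rw [map_mul, map_mul, map_mul, Complex.conj_I, hss, h2, hpi]
          ring
        · show conj (-(Complex.I * (2 * π * c))) = Complex.I * (2 * π * c)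
          rw [map_neg, map_mul, map_mul, map_mul, Complex.conj_I, hcc, h2, hpi]
          ring
        · exact map_zero _
        · exact map_zero _
      have e3 : bar (LL β 1) x = ![0, (β : ℂ), 0, 1, Complex.I] := by
        funext i
        show conj (LL β 1 x i) = _
        rw [e1]
        fin_cases i
        · exact map_zero _
        · exact Complex.conj_ofReal _
        · exact map_zero _
        · exact map_one _
        · show conj (-Complex.I) = Complex.I
          rw [map_neg, Complex.conj_I, neg_neg]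
      have e4 : TT x = ![0, -c, -s, 0, 0] := rfl
      unfold frame
      rw [e0, e1, e2, e3, e4]
    rw [hfr]
    have hdet : (Matrix.of ![![1, Complex.I * (2 * π * s), -(Complex.I * (2 * π * c)), 0, 0],
        ![0, (β : ℂ), 0, 1, -Complex.I],
        ![1, -(Complex.I * (2 * π * s)), Complex.I * (2 * π * c), 0, 0],
        ![0, (β : ℂ), 0, 1, Complex.I],
        ![0, -c, -s, 0, 0]] : Matrix (Fin 5) (Fin 5) ℂ).det = 8 * π * (c ^ 2 + s ^ 2) := by
      simp [Matrix.det_succ_row_zero, Fin.sum_univ_succ, Fin.succAbove]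
      ring_nf
      simp [Complex.I_sq]
    rw [hdet, hcs]
    simp [Real.pi_ne_zero]
  · intro x
    have h0 : ∀ i, app (LL β 0) (fun y => LL β 1 y i) x = 0 := by
      intro i
      unfold app
      apply Finset.sum_eq_zero
      intro k _
      have : (fun y : X => LL β 1 y i) = fun _ => (![0, (β : ℂ), 0, 1, -Complex.I] : Fin 5 → ℂ) i := rfl
      rw [this, pd_const, mul_zero]
    have hz : LL β 1 x 0 = 0 := rfl
    have h1 : ∀ i, app (LL β 1) (fun y => LL β 0 y i) x = 0 := by
      intro i
      unfold app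
      apply Finset.sum_eq_zero
      intro k _
      by_cases hk : k = 0
      · rw [hk, hz, zero_mul]
      · have h2 : pd k (fun y => LL β 0 y i) x = 0 := by
          fin_cases i
          · exact pd_const k 1 x
          · exact pd_of_zero hk sin_diff x
          · exact pd_of_zero hk cos_diff x
          · exact pd_const k 0 x
          · exact pd_const k 0 x
        rw [h2, mul_zero]
    funext i
    show app (LL β 0) (fun y => LL β 1 y i) x - app (LL β 1) (fun y => LL β 0 y i) x = 0
    rw [h0, h1, sub_zero]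

end Pool.Agent.Helper112.Kohn
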