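import Pool.Agent.Helper112.Kohn.Ex

open scoped ContDiff ComplexConjugate Real ComplexOrder
open MeasureTheory

noncomputable section

namespace Pool.Agent.Helper112.Kohn

/-! TO PROVE -/

/-! auxiliary -/

theorem cexp_iter (n : ℕ) (z : ℂ) :
    ‖iteratedFDeriv ℝ n Complex.exp z‖ = ‖Complex.exp z‖ := by
  induction n generalizing z with
  | zero => rw [norm_iteratedFDeriv_zero]
  | succ n ih =>
    rw [← norm_iteratedFDeriv_fderiv]
    have h : fderiv ℝ Complex.exp = (ContinuousLinearMap.mulₗᵢ ℝ ℂ) ∘ Complex.exp := by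
      funext w
      have h1 := ((Complex.hasDerivAt_exp w).hasFDerivAt.restrictScalars ℝ).fderiv
      rw [h1]
      ext v
      simp [mul_comm]
    have hcd : ContDiff ℝ n Complex.exp := (Complex.contDiff_exp (𝕜 := ℝ))
    rw [h, LinearIsometry.norm_iteratedFDeriv_comp_left _ hcd.contDiffAt le_rfl]
    exact ih z

/-- smooth with bounded derivatives of positive order -/
def BD (f : X → ℂ) : Prop :=
  ContDiff ℝ ∞ f ∧ ∀ n : ℕ, ∃ M : ℝ, ∀ x, ‖iteratedFDeriv ℝ (n + 1) f x‖ ≤ M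

theorem lin_iter (ℓ : X →L[ℝ] ℂ) (n : ℕ) (x : X) :
    ‖iteratedFDeriv ℝ (n + 1) (fun x => ℓ x) x‖ ≤ ‖ℓ‖ := by
  rw [← norm_iteratedFDeriv_fderiv]
  have h : fderiv ℝ (fun x => ℓ x) = fun _ => ℓ := by
    funext y
    exact ℓ.fderiv
  rw [h]
  cases n with
  | zero => rw [norm_iteratedFDeriv_zero]
  | succ n =>
    rw [iteratedFDeriv_succ_const]
    simp

theorem BD.lin (ℓ : X →L[ℝ] ℂ) : BD (fun x => ℓ x) :=
  ⟨ℓ.contDiff, fun n => ⟨‖ℓ‖, fun x => lin_iter ℓ n x⟩⟩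

theorem BD.const (c : ℂ) : BD (fun _ => c) :=
  ⟨contDiff_const, fun n => ⟨0, fun x => by rw [iteratedFDeriv_succ_const]; simp⟩⟩

theorem BD.add {f g : X → ℂ} (hf : BD f) (hg : BD g) : BD (fun x => f x + g x) := by
  refine ⟨hf.1.add hg.1, fun n => ?_⟩
  obtain ⟨M, hM⟩ := hf.2 n
  obtain ⟨M', hM'⟩ := hg.2 n
  refine ⟨M + M', fun x => ?_⟩
  have h1 : ContDiffAt ℝ ((n + 1 : ℕ) : WithTop ℕ∞) f x :=
    (hf.1.of_le (by exact_mod_cast le_top)).contDiffAt
  have h2 : ContDiffAt ℝ ((n + 1 : ℕ) : WithTop ℕ∞) g x :=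
    (hg.1.of_le (by exact_mod_cast le_top)).contDiffAt
  have h3 := iteratedFDeriv_add_apply h1 h2
  have h4 : iteratedFDeriv ℝ (n + 1) (fun x => f x + g x) x =
    iteratedFDeriv ℝ (n + 1) f x + iteratedFDeriv ℝ (n + 1) g x := h3
  rw [h4]
  exact (norm_add_le _ _).trans (add_le_add (hM x) (hM' x))

theorem smul_iter {f : X → ℂ} (c : ℂ) (n : ℕ) (x : X) (hf : ContDiff ℝ ∞ f) :
    ‖iteratedFDeriv ℝ n (fun x => c * f x) x‖ = ‖c‖ * ‖iteratedFDeriv ℝ n f x‖ := by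
  have h1 : ContDiffAt ℝ (n : WithTop ℕ∞) f x :=
    (hf.of_le (by exact_mod_cast le_top)).contDiffAt
  have h2 := iteratedFDeriv_const_smul_apply (a := c) h1
  have h3 : iteratedFDeriv ℝ n (fun x => c * f x) x = c • iteratedFDeriv ℝ n f x := h2
  rw [h3, norm_smul]

theorem BD.smul {f : X → ℂ} (c : ℂ) (hf : BD f) : BD (fun x => c * f x) := by
  refine ⟨contDiff_const.mul hf.1, fun n => ?_⟩
  obtain ⟨M, hM⟩ := hf.2 n
  refine ⟨‖c‖ * M, fun x => ?_⟩
  rw [smul_iter c (n + 1) x hf.1]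
  exact mul_le_mul_of_nonneg_left (hM x) (norm_nonneg _)

theorem BD.cexp (ℓ : X →L[ℝ] ℂ) (hℓ : ∀ x, (ℓ x).re = 0) : BD (fun x => Complex.exp (ℓ x)) := by
  have hcd : ContDiff ℝ ∞ Complex.exp := (Complex.contDiff_exp (𝕜 := ℝ))
  refine ⟨hcd.comp ℓ.contDiff, fun n => ?_⟩
  refine ⟨(n + 1).factorial * 1 * (max 1 ‖ℓ‖) ^ (n + 1), fun x => ?_⟩
  have h := norm_iteratedFDeriv_comp_le (𝕜 := ℝ) (g := Complex.exp) (f := fun x => ℓ x)
    (n := n + 1) (N := ∞) hcd ℓ.contDiff (by exact_mod_cast le_top) x (C := 1)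
    (D := max 1 ‖ℓ‖) (by
      intro i _
      rw [cexp_iter, Complex.norm_exp, hℓ, Real.exp_zero]) (by
      intro i hi _
      obtain ⟨m, rfl⟩ : ∃ m, i = m + 1 := ⟨i - 1, by omega⟩
      calc _ ≤ ‖ℓ‖ := lin_iter ℓ m x
        _ ≤ max 1 ‖ℓ‖ := le_max_right _ _
        _ ≤ (max 1 ‖ℓ‖) ^ (m + 1) := le_self_pow₀ (le_max_left _ _) (by omega))
  exact h

/-- the linear form `c x_i` -/
def lf (c : ℂ) (i : Fin 5) : X →L[ℝ] ℂ :=
  c • (Complex.ofRealCLM.comp (ContinuousLinearMap.proj i : X →L[ℝ] ℝ))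

theorem lf_apply (c : ℂ) (i : Fin 5) (x : X) : lf c i x = c * ((x i : ℝ) : ℂ) := by
  simp [lf]

/-- first phase -/
def AA (x : X) : ℂ := 2 * π * ((Real.cos (2 * π * x 0) - 1 : ℝ) : ℂ) + lf (2 * π * Complex.I) 1 x

/-- second phase -/
def BB (x : X) : ℂ := lf (2 * π * Complex.I) 3 x

theorem AA_bd : BD AA := by
  have h1 : AA = fun x => (((π : ℂ) * Complex.exp (lf (2 * π * Complex.I) 0 x) +
      (π : ℂ) * Complex.exp (lf (-(2 * π * Complex.I)) 0 x)) + (-(2 * π) : ℂ)) +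
      lf (2 * π * Complex.I) 1 x := by
    funext x
    unfold AA
    congr 1
    have h2 : ((Real.cos (2 * π * x 0) : ℝ) : ℂ) =
        (Complex.exp (lf (2 * π * Complex.I) 0 x) +
          Complex.exp (lf (-(2 * π * Complex.I)) 0 x)) / 2 := by
      rw [lf_apply, lf_apply, Complex.ofReal_cos, Complex.cos]
      push_cast
      congr 3
      · ring
      · ring
    push_cast
    rw [← Complex.ofReal_ofNat, ← Complex.ofReal_mul, ← Complex.ofReal_mul,
      ← Complex.ofReal_cos, h2]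
    push_cast
    ring
  rw [h1]
  refine BD.add (BD.add (BD.add (BD.smul _ (BD.cexp _ ?_)) (BD.smul _ (BD.cexp _ ?_)))
    (BD.const _)) (BD.lin _)
  · intro x
    rw [lf_apply]
    simp
  · intro x
    rw [lf_apply]
    simp

theorem BB_bd : BD BB := BD.lin _

theorem EE_eq (k : ℕ) (l : ℤ) (x : X) :
    EE k l x = Complex.exp ((k : ℂ) * AA x + (l : ℂ) * BB x) := by
  unfold EE AA BB
  rw [lf_apply, lf_apply]
  congr 1
  push_cast
  ring

theorem EE_re (k : ℕ) (l : ℤ) (x : X) : ‖Complex.exp ((k : ℂ) * AA x + (l : ℂ) * BB x)‖ ≤ 1 := by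
  rw [Complex.norm_exp, Real.exp_le_one_iff]
  have h : ((k : ℂ) * AA x + (l : ℂ) * BB x).re = k * (2 * π * (Real.cos (2 * π * x 0) - 1)) := by
    have h1 : (k : ℂ) * AA x + (l : ℂ) * BB x =
        ((k * (2 * π * (Real.cos (2 * π * x 0) - 1)) : ℝ) : ℂ) +
        ((2 * π * (k * x 1 + l * x 3) : ℝ) : ℂ) * Complex.I := by
      unfold AA BB
      rw [lf_apply, lf_apply]
      push_cast
      ring
    rw [h1, Complex.add_re, Complex.ofReal_re, Complex.re_ofReal_mul, Complex.I_re, mul_zero,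
      add_zero]
  rw [h]
  have h2 := Real.cos_le_one (2 * π * x 0)
  have h3 : 2 * π * (Real.cos (2 * π * x 0) - 1) ≤ 0 :=
    mul_nonpos_of_nonneg_of_nonpos (by positivity) (by linarith)
  exact mul_nonpos_of_nonneg_of_nonpos (by positivity) h3

theorem EE_contDiff (k : ℕ) (l : ℤ) : ContDiff ℝ ∞ (EE k l) := by
  have h : EE k l = fun x => Complex.exp ((k : ℂ) * AA x + (l : ℂ) * BB x) :=
    funext fun x => EE_eq k l x
  rw [h]
  exact (Complex.contDiff_exp (𝕜 := ℝ)).comp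
    ((contDiff_const.mul AA_bd.1).add (contDiff_const.mul BB_bd.1))

theorem EE_bound (n : ℕ) : ∃ C : ℝ, 0 ≤ C ∧ ∀ (k : ℕ) (l : ℤ), |l| ≤ k → 1 ≤ k → ∀ x,
    ‖iteratedFDeriv ℝ n (EE k l) x‖ ≤ C * (k : ℝ) ^ n := by
  choose MA hMA using AA_bd.2
  choose MB hMB using BB_bd.2
  let M : ℝ := 1 + ∑ i ∈ Finset.range n, (|MA i| + |MB i|)
  have hM1 : 1 ≤ M := by
    have : 0 ≤ ∑ i ∈ Finset.range n, (|MA i| + |MB i|) :=
      Finset.sum_nonneg fun i _ => add_nonneg (abs_nonneg _) (abs_nonneg _)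
    show 1 ≤ 1 + ∑ i ∈ Finset.range n, (|MA i| + |MB i|)
    linarith
  refine ⟨n.factorial * 1 * M ^ n, by positivity, fun k l hl hk x => ?_⟩
  have hk' : (1 : ℝ) ≤ k := by exact_mod_cast hk
  have hl' : ‖(l : ℂ)‖ ≤ k := by
    rw [Complex.norm_intCast]
    exact_mod_cast hl
  have h : EE k l = Complex.exp ∘ fun x => (k : ℂ) * AA x + (l : ℂ) * BB x :=
    funext fun x => EE_eq k l x
  rw [h]
  have hcd : ContDiff ℝ ∞ Complex.exp := (Complex.contDiff_exp (𝕜 := ℝ))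
  have hφ : BD fun x => (k : ℂ) * AA x + (l : ℂ) * BB x := (AA_bd.smul _).add (BB_bd.smul _)
  have h2 := norm_iteratedFDeriv_comp_le (𝕜 := ℝ) (g := Complex.exp)
    (f := fun x => (k : ℂ) * AA x + (l : ℂ) * BB x)
    (n := n) (N := ∞) hcd hφ.1 (by exact_mod_cast le_top) x (C := 1)
    (D := k * M) (by
      intro i _
      rw [cexp_iter]
      exact EE_re k l x) (by
      intro i hi hin
      obtain ⟨m, rfl⟩ : ∃ m, i = m + 1 := ⟨i - 1, by omega⟩
      have h3 : ContDiffAt ℝ ((m + 1 : ℕ) : WithTop ℕ∞) (fun x => (k : ℂ) * AA x) x :=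
        ((AA_bd.smul (k : ℂ)).1.of_le (by exact_mod_cast le_top)).contDiffAt
      have h4 : ContDiffAt ℝ ((m + 1 : ℕ) : WithTop ℕ∞) (fun x => (l : ℂ) * BB x) x :=
        ((BB_bd.smul (l : ℂ)).1.of_le (by exact_mod_cast le_top)).contDiffAt
      have h5 : iteratedFDeriv ℝ (m + 1) (fun x => (k : ℂ) * AA x + (l : ℂ) * BB x) x =
        iteratedFDeriv ℝ (m + 1) (fun x => (k : ℂ) * AA x) x +
          iteratedFDeriv ℝ (m + 1) (fun x => (l : ℂ) * BB x) x := iteratedFDeriv_add_apply h3 h4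
      rw [h5]
      have h6 : |MA m| + |MB m| ≤ M := by
        have : |MA m| + |MB m| ≤ ∑ i ∈ Finset.range n, (|MA i| + |MB i|) :=
          Finset.single_le_sum (f := fun i => |MA i| + |MB i|)
            (fun i _ => add_nonneg (abs_nonneg _) (abs_nonneg _)) (Finset.mem_range.mpr (by omega))
        show |MA m| + |MB m| ≤ 1 + ∑ i ∈ Finset.range n, (|MA i| + |MB i|)
        linarith
      have h7 : (1 : ℝ) ≤ k * M := by nlinarith
      calc _ ≤ ‖iteratedFDeriv ℝ (m + 1) (fun x => (k : ℂ) * AA x) x‖ +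
            ‖iteratedFDeriv ℝ (m + 1) (fun x => (l : ℂ) * BB x) x‖ := norm_add_le _ _
        _ = ‖(k : ℂ)‖ * ‖iteratedFDeriv ℝ (m + 1) AA x‖ +
            ‖(l : ℂ)‖ * ‖iteratedFDeriv ℝ (m + 1) BB x‖ := by
          rw [smul_iter _ _ _ AA_bd.1, smul_iter _ _ _ BB_bd.1]
        _ ≤ k * |MA m| + k * |MB m| := by
          rw [Complex.norm_natCast]
          refine add_le_add ?_ ?_
          · exact mul_le_mul_of_nonneg_left ((hMA m x).trans (le_abs_self _)) (by positivity)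
          · exact mul_le_mul hl' ((hMB m x).trans (le_abs_self _)) (norm_nonneg _) (by positivity)
        _ = k * (|MA m| + |MB m|) := by ring
        _ ≤ k * M := mul_le_mul_of_nonneg_left h6 (by positivity)
        _ ≤ (k * M) ^ (m + 1) := le_self_pow₀ h7 (by omega))
  refine h2.trans (le_of_eq ?_)
  rw [mul_pow]
  ring


theorem SS_contDiff {k : ℕ → ℕ} {l : ℕ → ℤ} {c : ℕ → ℂ} (hl : ∀ j, |l j| ≤ k j)
    (hk : ∀ j, 1 ≤ k j) (hc : ∀ r : ℕ, Summable fun j => ‖c j‖ * (k j : ℝ) ^ r) :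
    ContDiff ℝ ∞ (SS k l c) := by
  choose C hC0 hC using EE_bound
  have h := contDiff_tsum (𝕜 := ℝ) (N := ⊤) (f := fun j x => c j * EE (k j) (l j) x)
    (v := fun n j => C n * (‖c j‖ * (k j : ℝ) ^ n))
    (fun j => contDiff_const.mul (EE_contDiff (k j) (l j)))
    (fun n _ => (hc n).mul_left (C n))
    (fun n j x _ => by
      rw [smul_iter _ _ _ (EE_contDiff (k j) (l j))]
      calc ‖c j‖ * ‖iteratedFDeriv ℝ n (EE (k j) (l j)) x‖ ≤ ‖c j‖ * (C n * (k j : ℝ) ^ n) :=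
            mul_le_mul_of_nonneg_left (hC n (k j) (l j) (hl j) (hk j) x) (norm_nonneg _)
        _ = C n * (‖c j‖ * (k j : ℝ) ^ n) := by ring)
  exact h

theorem SS_pd {k : ℕ → ℕ} {l : ℕ → ℤ} {c : ℕ → ℂ} (hl : ∀ j, |l j| ≤ k j)
    (hk : ∀ j, 1 ≤ k j) (hc : ∀ r : ℕ, Summable fun j => ‖c j‖ * (k j : ℝ) ^ r) (i : Fin 5)
    (x : X) : pd i (SS k l c) x = ∑' j, c j * pd i (EE (k j) (l j)) x ∧
      Summable (fun j => c j * pd i (EE (k j) (l j)) x) := by
  choose C hC0 hC using EE_bound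
  have hu : Summable fun j => C 1 * (‖c j‖ * (k j : ℝ) ^ 1) := (hc 1).mul_left (C 1)
  have hdE : ∀ j, Differentiable ℝ (EE (k j) (l j)) := fun j =>
    (EE_contDiff (k j) (l j)).differentiable (by simp)
  have hd : ∀ j, Differentiable ℝ (fun x => c j * EE (k j) (l j) x) := fun j =>
    (hdE j).const_mul (c j)
  have hfd : ∀ j x, fderiv ℝ (fun x => c j * EE (k j) (l j) x) x =
      c j • fderiv ℝ (EE (k j) (l j)) x := by
    intro j x
    exact fderiv_const_mul ((hdE j) x) (c j)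
  have hb : ∀ j x, ‖fderiv ℝ (fun x => c j * EE (k j) (l j) x) x‖ ≤
      C 1 * (‖c j‖ * (k j : ℝ) ^ 1) := by
    intro j x
    have h1 := hC 1 (k j) (l j) (hl j) (hk j) x
    rw [norm_iteratedFDeriv_one] at h1
    rw [hfd, norm_smul]
    calc ‖c j‖ * ‖fderiv ℝ (EE (k j) (l j)) x‖ ≤ ‖c j‖ * (C 1 * (k j : ℝ) ^ 1) :=
          mul_le_mul_of_nonneg_left h1 (norm_nonneg _)
      _ = _ := by ring
  have h0 : Summable fun j => c j * EE (k j) (l j) x := by
    refine Summable.of_norm_bounded (g := fun j => C 0 * (‖c j‖ * (k j : ℝ) ^ 0))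
      ((hc 0).mul_left (C 0)) fun j => ?_
    have h1 := hC 0 (k j) (l j) (hl j) (hk j) x
    rw [norm_iteratedFDeriv_zero] at h1
    rw [norm_mul]
    calc ‖c j‖ * ‖EE (k j) (l j) x‖ ≤ ‖c j‖ * (C 0 * (k j : ℝ) ^ 0) :=
          mul_le_mul_of_nonneg_left h1 (norm_nonneg _)
      _ = _ := by ring
  have h1 : fderiv ℝ (SS k l c) x = ∑' j, fderiv ℝ (fun x => c j * EE (k j) (l j) x) x :=
    fderiv_tsum_apply hu hd hb h0 x
  have hs : Summable fun j => fderiv ℝ (fun x => c j * EE (k j) (l j) x) x :=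
    Summable.of_norm_bounded hu fun j => hb j x
  have h2 : ∀ j, c j * pd i (EE (k j) (l j)) x =
      ContinuousLinearMap.apply ℝ ℂ (Pi.single i 1 : X)
        (fderiv ℝ (fun x => c j * EE (k j) (l j) x) x) := by
    intro j
    rw [hfd]
    rfl
  constructor
  · unfold pd
    rw [h1]
    have h3 := (ContinuousLinearMap.apply ℝ ℂ (Pi.single i 1 : X)).map_tsum hs
    have h4 : (∑' j, fderiv ℝ (fun x => c j * EE (k j) (l j) x) x) (Pi.single i 1) =
        ContinuousLinearMap.apply ℝ ℂ (Pi.single i 1 : X)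
          (∑' j, fderiv ℝ (fun x => c j * EE (k j) (l j) x) x) := rfl
    rw [h4, h3]
    exact tsum_congr fun j => (h2 j).symm
  · simp only [h2]
    exact (ContinuousLinearMap.apply ℝ ℂ (Pi.single i 1 : X)).summable hs

theorem SS_per {k : ℕ → ℕ} {l : ℕ → ℤ} {c : ℕ → ℂ} : Per (SS k l c) := by
  intro x m
  unfold SS
  apply tsum_congr
  intro j
  congr 1
  unfold EE
  have h1 : Real.cos (2 * π * (x 0 + m 0)) = Real.cos (2 * π * x 0) := by
    have := Real.cos_add_int_mul_two_pi (2 * π * x 0) (m 0)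
    rw [← this]
    congr 1
    ring
  rw [h1]
  have h2 : (2 * π * ((((k j : ℕ) : ℝ) * (Real.cos (2 * π * x 0) - 1) : ℝ) +
      Complex.I * (((k j : ℕ) * (x 1 + m 1) + (l j) * (x 3 + m 3) : ℝ) : ℂ)) : ℂ) =
      2 * π * ((((k j : ℕ) : ℝ) * (Real.cos (2 * π * x 0) - 1) : ℝ) +
      Complex.I * (((k j : ℕ) * x 1 + (l j) * x 3 : ℝ) : ℂ)) +
      (((k j : ℤ) * m 1 + l j * m 3 : ℤ) : ℂ) * (2 * π * Complex.I) := by
    push_cast
    ring
  rw [h2, Complex.exp_add, Complex.exp_int_mul_two_pi_mul_I, mul_one]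

end Pool.Agent.Helper112.Kohn
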