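import Pool.Agent.Helper112.Kohn.Ex

open scoped ContDiff ComplexConjugate Real ComplexOrder
open MeasureTheory

noncomputable section

namespace Pool.Agent.Helper112.Kohn

section SSan

/-- unit vectors of `ℓ^∞` -/
def uv (j : ℕ) : BoundedContinuousFunction ℕ ℂ :=
  BoundedContinuousFunction.ofNormedAddCommGroupDiscrete (fun n => if n = j then (1 : ℂ) else 0) 1
    (fun n => by split_ifs <;> simp)

lemma uv_apply (j n : ℕ) : uv j n = if n = j then (1 : ℂ) else 0 := rfl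

lemma norm_uv (j : ℕ) : ‖uv j‖ ≤ 1 := by
  rw [BoundedContinuousFunction.norm_le zero_le_one]
  intro n
  rw [uv_apply]
  split_ifs <;> simp

/-- the weights -/
def rr (k : ℕ → ℕ) (j : ℕ) : ℝ := Real.exp (-((k j : ℝ) ^ 2 / 4))

/-- the series with values in `ℓ^∞` -/
def Ph (k : ℕ → ℕ) (m : ℕ → ℤ) (a : ℂ) : BoundedContinuousFunction ℕ ℂ :=
  ∑' j, (Complex.exp (m j * a) * (rr k j : ℂ)) • uv j

lemma Ph_bound {k : ℕ → ℕ} {m : ℕ → ℤ} (hk : StrictMono k) (hm : ∀ j, |m j| ≤ k j) (R : ℝ)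
    (hR : 0 ≤ R) (j : ℕ) (a : ℂ) (ha : ‖a‖ ≤ R) :
    ‖(Complex.exp (m j * a) * (rr k j : ℂ)) • uv j‖ ≤
      Real.exp ((R + 1) ^ 2) * Real.exp (-(j : ℝ)) := by
  have h1 : (j : ℝ) ≤ k j := by exact_mod_cast hk.le_apply
  have hm' : |(m j : ℝ)| ≤ (k j : ℝ) := by
    have := hm j
    exact_mod_cast this
  have h2 : ‖Complex.exp (m j * a)‖ ≤ Real.exp ((k j : ℝ) * R) := by
    rw [Complex.norm_exp]
    apply Real.exp_le_exp.2
    refine (Complex.re_le_norm _).trans ?_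
    rw [norm_mul, Complex.norm_intCast]
    exact mul_le_mul hm' ha (norm_nonneg _) (Nat.cast_nonneg _)
  have h3 : ‖(rr k j : ℂ)‖ = Real.exp (-((k j : ℝ) ^ 2 / 4)) := by
    rw [Complex.norm_real, rr, Real.norm_eq_abs, abs_of_pos (Real.exp_pos _)]
  rw [norm_smul, norm_mul, h3]
  calc ‖Complex.exp (m j * a)‖ * Real.exp (-((k j : ℝ) ^ 2 / 4)) * ‖uv j‖
      ≤ Real.exp ((k j : ℝ) * R) * Real.exp (-((k j : ℝ) ^ 2 / 4)) * 1 := by
        apply mul_le_mul _ (norm_uv j) (norm_nonneg _) (by positivity)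
        exact mul_le_mul_of_nonneg_right h2 (Real.exp_pos _).le
    _ = Real.exp ((k j : ℝ) * R + -((k j : ℝ) ^ 2 / 4)) := by rw [mul_one, Real.exp_add]
    _ ≤ Real.exp ((R + 1) ^ 2 + -(j : ℝ)) := by
        apply Real.exp_le_exp.2
        nlinarith only [h1, sq_nonneg ((k j : ℝ) / 2 - (R + 1))]
    _ = _ := by rw [Real.exp_add]

lemma Ph_summable {k : ℕ → ℕ} {m : ℕ → ℤ} (hk : StrictMono k) (hm : ∀ j, |m j| ≤ k j) (a : ℂ) :
    Summable fun j => (Complex.exp (m j * a) * (rr k j : ℂ)) • uv j :=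
  Summable.of_norm_bounded ((Real.summable_exp_neg_nat).mul_left (Real.exp ((‖a‖ + 1) ^ 2)))
    (fun j => Ph_bound hk hm ‖a‖ (norm_nonneg _) j a le_rfl)

lemma Ph_diff {k : ℕ → ℕ} {m : ℕ → ℤ} (hk : StrictMono k) (hm : ∀ j, |m j| ≤ k j) :
    Differentiable ℂ (Ph k m) := by
  intro a₀
  have hU : IsOpen (Metric.ball (0 : ℂ) (‖a₀‖ + 1)) := Metric.isOpen_ball
  have h := Complex.differentiableOn_tsum_of_summable_norm (F := fun j (a : ℂ) =>
    (Complex.exp (m j * a) * (rr k j : ℂ)) • uv j)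
    (U := Metric.ball (0 : ℂ) (‖a₀‖ + 1))
    ((Real.summable_exp_neg_nat).mul_left (Real.exp (((‖a₀‖ + 1) + 1) ^ 2)))
    (fun j => by
      apply Differentiable.differentiableOn
      apply Differentiable.smul_const
      apply Differentiable.mul_const
      apply Differentiable.cexp
      exact (differentiable_id).const_mul _)
    hU (fun j a ha => Ph_bound hk hm _ (by positivity) j a (by
      rw [Metric.mem_ball, dist_zero_right] at ha
      exact ha.le))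
  exact h.differentiableAt (hU.mem_nhds (by
    rw [Metric.mem_ball, dist_zero_right]
    linarith [norm_nonneg a₀]))

lemma Ph_apply {k : ℕ → ℕ} {m : ℕ → ℤ} (hk : StrictMono k) (hm : ∀ j, |m j| ≤ k j) (a : ℂ)
    (n : ℕ) : Ph k m a n = Complex.exp (m n * a) * (rr k n : ℂ) := by
  have h1 : Ph k m a n = ∑' j, ((Complex.exp (m j * a) * (rr k j : ℂ)) • uv j) n := by
    have h2 := (BoundedContinuousFunction.evalCLM ℂ n : BoundedContinuousFunction ℕ ℂ →L[ℂ] ℂ).map_tsum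
      (Ph_summable hk hm a)
    exact h2
  rw [h1, tsum_eq_single n]
  · rw [BoundedContinuousFunction.smul_apply, uv_apply, if_pos rfl, smul_eq_mul, mul_one]
  · intro j hj
    rw [BoundedContinuousFunction.smul_apply, uv_apply, if_neg (Ne.symm hj), smul_zero]

/-- the functional -/
def Lam (k : ℕ → ℕ) (c : ℕ → ℂ) : BoundedContinuousFunction ℕ ℂ →L[ℂ] ℂ :=
  ∑' j, (c j * (Real.exp ((k j : ℝ) ^ 2 / 2) : ℂ)) •
    (BoundedContinuousFunction.evalCLM ℂ j : BoundedContinuousFunction ℕ ℂ →L[ℂ] ℂ)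

lemma Lam_summable {k : ℕ → ℕ} {c : ℕ → ℂ} (hk : StrictMono k)
    (hc : ∀ j, ‖c j‖ ≤ Real.exp (-((k j : ℝ) ^ 2))) :
    Summable fun j => (c j * (Real.exp ((k j : ℝ) ^ 2 / 2) : ℂ)) •
    (BoundedContinuousFunction.evalCLM ℂ j : BoundedContinuousFunction ℕ ℂ →L[ℂ] ℂ) := by
  refine Summable.of_norm_bounded ((Real.summable_exp_neg_nat).mul_left (Real.exp (1 / 2)))
    (fun j => ?_)
  have h1 : (j : ℝ) ≤ k j := by exact_mod_cast hk.le_apply
  have h2 : ‖(BoundedContinuousFunction.evalCLM ℂ j :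
      BoundedContinuousFunction ℕ ℂ →L[ℂ] ℂ)‖ ≤ 1 := by
    refine ContinuousLinearMap.opNorm_le_bound _ zero_le_one (fun f => ?_)
    rw [one_mul]
    exact f.norm_coe_le_norm j
  rw [norm_smul, norm_mul, Complex.norm_real, Real.norm_eq_abs, abs_of_pos (Real.exp_pos _)]
  calc ‖c j‖ * Real.exp ((k j : ℝ) ^ 2 / 2) * ‖(BoundedContinuousFunction.evalCLM ℂ j :
      BoundedContinuousFunction ℕ ℂ →L[ℂ] ℂ)‖
      ≤ Real.exp (-((k j : ℝ) ^ 2)) * Real.exp ((k j : ℝ) ^ 2 / 2) * 1 := by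
        apply mul_le_mul _ h2 (norm_nonneg _) (by positivity)
        exact mul_le_mul_of_nonneg_right (hc j) (Real.exp_pos _).le
    _ = Real.exp (-((k j : ℝ) ^ 2) + (k j : ℝ) ^ 2 / 2) := by rw [mul_one, Real.exp_add]
    _ ≤ Real.exp (1 / 2 + -(j : ℝ)) := by
        apply Real.exp_le_exp.2
        nlinarith only [h1, sq_nonneg ((k j : ℝ) - 1)]
    _ = _ := by rw [Real.exp_add]

lemma Lam_apply {k : ℕ → ℕ} {c : ℕ → ℂ} (hk : StrictMono k)
    (hc : ∀ j, ‖c j‖ ≤ Real.exp (-((k j : ℝ) ^ 2))) (f : BoundedContinuousFunction ℕ ℂ) :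
    Lam k c f = ∑' j, (c j * (Real.exp ((k j : ℝ) ^ 2 / 2) : ℂ)) * f j := by
  have h := (ContinuousLinearMap.apply ℂ ℂ f).map_tsum (Lam_summable hk hc)
  exact h

end SSan

theorem SS_analytic {k : ℕ → ℕ} {l : ℕ → ℤ} {c : ℕ → ℂ} (hk : StrictMono k)
    (hl : ∀ j, |l j| ≤ k j) (hc : ∀ j, ‖c j‖ ≤ Real.exp (-((k j : ℝ) ^ 2))) :
    ContDiff ℝ ω (SS k l c) := by
  have hkk : ∀ j, |((k j : ℕ) : ℤ)| ≤ (k j : ℕ) := fun j => by rw [Nat.abs_cast]
  have e : SS k l c = fun x : X => (Lam k c).restrictScalars ℝ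
      (Ph k (fun j => ((k j : ℕ) : ℤ))
        (2 * π * (((Real.cos (2 * π * x 0) - 1 : ℝ) : ℂ) + Complex.I * ((x 1 : ℝ) : ℂ))) *
      Ph k l (2 * π * (Complex.I * ((x 3 : ℝ) : ℂ)))) := by
    funext x
    rw [ContinuousLinearMap.coe_restrictScalars', Lam_apply hk hc]
    unfold SS
    refine tsum_congr (fun j => ?_)
    rw [BoundedContinuousFunction.mul_apply, Ph_apply hk hkk, Ph_apply hk hl]
    have h1 : (Real.exp ((k j : ℝ) ^ 2 / 2) : ℂ) * ((rr k j : ℂ) * (rr k j : ℂ)) = 1 := by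
      rw [rr, ← Complex.ofReal_mul, ← Complex.ofReal_mul, ← Real.exp_add, ← Real.exp_add]
      have : (k j : ℝ) ^ 2 / 2 + (-((k j : ℝ) ^ 2 / 4) + -((k j : ℝ) ^ 2 / 4)) = 0 := by ring
      rw [this, Real.exp_zero, Complex.ofReal_one]
    have h2 : EE (k j) (l j) x = Complex.exp (((k j : ℕ) : ℤ) *
        (2 * π * (((Real.cos (2 * π * x 0) - 1 : ℝ) : ℂ) + Complex.I * ((x 1 : ℝ) : ℂ)))) *
        Complex.exp (l j * (2 * π * (Complex.I * ((x 3 : ℝ) : ℂ)))) := by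
      rw [← Complex.exp_add]
      unfold EE
      congr 1
      push_cast
      ring
    rw [h2]
    linear_combination (-(c j * (Complex.exp (((k j : ℕ) : ℤ) *
        (2 * π * (((Real.cos (2 * π * x 0) - 1 : ℝ) : ℂ) + Complex.I * ((x 1 : ℝ) : ℂ)))) *
        Complex.exp (l j * (2 * π * (Complex.I * ((x 3 : ℝ) : ℂ))))))) * h1
  rw [e]
  have hx : ∀ i : Fin 5, ContDiff ℝ ω (fun x : X => x i) := fun i => contDiff_apply ℝ ℝ i
  have hof : ∀ {g : X → ℝ}, ContDiff ℝ ω g → ContDiff ℝ ω (fun x => ((g x : ℝ) : ℂ)) :=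
    fun hg => Complex.ofRealCLM.contDiff.comp hg
  have hA : ContDiff ℝ ω (fun x : X => (2 * π * (((Real.cos (2 * π * x 0) - 1 : ℝ) : ℂ) +
      Complex.I * ((x 1 : ℝ) : ℂ)) : ℂ)) := by
    refine ContDiff.mul contDiff_const (ContDiff.add (hof ?_) (ContDiff.mul contDiff_const
      (hof (hx 1))))
    exact (Real.contDiff_cos.comp (contDiff_const.mul (hx 0))).sub contDiff_const
  have hB : ContDiff ℝ ω (fun x : X => (2 * π * (Complex.I * ((x 3 : ℝ) : ℂ)) : ℂ)) :=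
    ContDiff.mul contDiff_const (ContDiff.mul contDiff_const (hof (hx 3)))
  have hP1 : ContDiff ℝ ω (Ph k (fun j => ((k j : ℕ) : ℤ))) :=
    ((Ph_diff hk hkk).contDiff (n := ω)).restrict_scalars ℝ
  have hP2 : ContDiff ℝ ω (Ph k l) := ((Ph_diff hk hl).contDiff (n := ω)).restrict_scalars ℝ
  exact ((Lam k c).restrictScalars ℝ).contDiff.comp ((hP1.comp hA).mul (hP2.comp hB))

end Pool.Agent.Helper112.Kohn
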