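import Pool.Agent.Helper112.Kohn.Ex

open scoped ContDiff ComplexConjugate Real ComplexOrder
open MeasureTheory

noncomputable section

namespace Pool.Agent.Helper112.Kohn

/-! TO PROVE -/

theorem SSp_norm_EE (k : ℕ) (l : ℤ) (x : X) : ‖EE k l x‖ ≤ 1 := by
  unfold EE
  rw [Complex.norm_exp]
  have e : (2 * (π : ℂ) * (((k : ℝ) * (Real.cos (2 * π * x 0) - 1) : ℝ) +
    Complex.I * ((k * x 1 + l * x 3 : ℝ) : ℂ))).re
      = 2 * π * ((k : ℝ) * (Real.cos (2 * π * x 0) - 1)) := by
    have : (2 * (π : ℂ) * (((k : ℝ) * (Real.cos (2 * π * x 0) - 1) : ℝ) +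
      Complex.I * ((k * x 1 + l * x 3 : ℝ) : ℂ)))
      = ((2 * π * ((k : ℝ) * (Real.cos (2 * π * x 0) - 1)) : ℝ) : ℂ)
        + Complex.I * ((2 * π * (k * x 1 + l * x 3) : ℝ) : ℂ) := by
      push_cast; ring
    rw [this]
    simp only [Complex.add_re, Complex.mul_re, Complex.I_re, Complex.I_im, Complex.ofReal_re,
      Complex.ofReal_im]
    ring
  rw [e]
  apply Real.exp_le_one_iff.mpr
  have h1 := Real.cos_le_one (2 * π * x 0)
  have h2 : (k : ℝ) * (Real.cos (2 * π * x 0) - 1) ≤ 0 :=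
    mul_nonpos_of_nonneg_of_nonpos (Nat.cast_nonneg k) (by linarith)
  have h3 := Real.pi_pos
  exact mul_nonpos_of_nonneg_of_nonpos (by linarith) h2

theorem SSp_cont (k : ℕ) (l : ℤ) : Continuous (EE k l) := by
  unfold EE
  fun_prop

theorem SSp_int (m : ℤ) (hm : m ≠ 0) :
    ∫ t in Set.Icc (0 : ℝ) 1, Complex.exp (2 * π * Complex.I * (m * t)) = 0 := by
  rw [MeasureTheory.integral_Icc_eq_integral_Ioc,
    ← intervalIntegral.integral_of_le (zero_le_one' ℝ)]
  have hc : (2 * π * Complex.I * m : ℂ) ≠ 0 := by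
    have h1 : (π : ℂ) ≠ 0 := by exact_mod_cast Real.pi_ne_zero
    have h2 : (m : ℂ) ≠ 0 := by exact_mod_cast hm
    simp [h1, h2, Complex.I_ne_zero]
  have e : (fun t : ℝ => Complex.exp (2 * π * Complex.I * (m * t)))
      = fun t : ℝ => Complex.exp ((2 * π * Complex.I * m) * t) := by
    funext t; congr 1; ring
  rw [e, integral_exp_mul_complex hc]
  have e1 : Complex.exp (2 * π * Complex.I * m * (1 : ℝ)) = 1 := by
    have := Complex.exp_int_mul_two_pi_mul_I m
    rw [← this]; congr 1; push_cast; ring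
  have e2 : Complex.exp (2 * π * Complex.I * m * (0 : ℝ)) = 1 := by simp
  rw [e1, e2]; simp

/-- the five factors -/
def SSp_f (a : ℝ) (m n : ℤ) : Fin 5 → ℝ → ℂ :=
  ![fun t => Complex.exp ((2 * π * (a * (Real.cos (2 * π * t) - 1)) : ℝ) : ℂ),
    fun t => Complex.exp (2 * π * Complex.I * (m * t)), fun _ => 1,
    fun t => Complex.exp (2 * π * Complex.I * (n * t)), fun _ => 1]

theorem SSp_prod (k k' : ℕ) (l l' : ℤ) (x : X) :
    EE k l x * conj (EE k' l' x) = ∏ i, SSp_f ((k : ℝ) + k') ((k : ℤ) - k') (l - l') i (x i) := by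
  rw [Fin.prod_univ_five]
  simp only [SSp_f, Matrix.cons_val]
  unfold EE
  rw [← Complex.exp_conj, ← Complex.exp_add, mul_one, mul_one, ← Complex.exp_add, ← Complex.exp_add]
  congr 1
  simp only [map_mul, map_add, Complex.conj_ofReal, Complex.conj_I, map_ofNat]
  push_cast
  ring

theorem SSp_orth (k k' : ℕ) (l l' : ℤ) (h : k ≠ k') :
    ∫ x in Set.Icc (0 : X) 1, EE k l x * conj (EE k' l' x) = 0 := by
  have e : (fun x : X => EE k l x * conj (EE k' l' x))
      = fun x : X => ∏ i, SSp_f ((k : ℝ) + k') ((k : ℤ) - k') (l - l') i (x i) := by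
    funext x; exact SSp_prod k k' l l' x
  rw [e]
  have hset : Set.Icc (0 : X) 1 = Set.univ.pi (fun _ : Fin 5 => Set.Icc (0 : ℝ) 1) := by
    rw [← Set.pi_univ_Icc]; rfl
  rw [hset, volume_pi, Measure.restrict_pi_pi, integral_fintype_prod_eq_prod]
  apply Finset.prod_eq_zero (Finset.mem_univ (1 : Fin 5))
  have hm : ((k : ℤ) - k') ≠ 0 := by
    intro h0; apply h; omega
  have := SSp_int _ hm
  simpa [SSp_f] using this

theorem SS_pairing {k : ℕ → ℕ} {l : ℕ → ℤ} {c : ℕ → ℂ} (hk : StrictMono k)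
    (hc : Summable fun j => ‖c j‖) (i : ℕ) :
    ∫ x in Set.Icc (0 : X) 1, SS k l c x * conj (EE (k i) (l i) x) =
      c i * ((∫ x in Set.Icc (0 : X) 1, ‖EE (k i) (l i) x‖ ^ 2 : ℝ) : ℂ) := by
  have hfin : volume (Set.Icc (0 : X) 1) < ⊤ := isCompact_Icc.measure_lt_top
  have hintc : ∀ j, Integrable (fun x : X => c j * EE (k j) (l j) x * conj (EE (k i) (l i) x))
      (volume.restrict (Set.Icc (0 : X) 1)) := by
    intro j
    have hcont : Continuous (fun x : X => c j * EE (k j) (l j) x * conj (EE (k i) (l i) x)) :=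
      (continuous_const.mul (SSp_cont _ _)).mul (Complex.continuous_conj.comp (SSp_cont _ _))
    exact hcont.continuousOn.integrableOn_compact isCompact_Icc
  have hbd : ∀ j, ∫ x in Set.Icc (0 : X) 1, ‖c j * EE (k j) (l j) x * conj (EE (k i) (l i) x)‖
      ≤ ‖c j‖ * (volume.restrict (Set.Icc (0 : X) 1)).real Set.univ := by
    intro j
    haveI : IsFiniteMeasure (volume.restrict (Set.Icc (0 : X) 1)) :=
      ⟨by rw [Measure.restrict_apply_univ]; exact hfin⟩
    calc ∫ x in Set.Icc (0 : X) 1, ‖c j * EE (k j) (l j) x * conj (EE (k i) (l i) x)‖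
        ≤ ∫ x in Set.Icc (0 : X) 1, ‖c j‖ := by
          apply integral_mono (hintc j).norm (integrable_const _)
          intro x
          show ‖c j * EE (k j) (l j) x * conj (EE (k i) (l i) x)‖ ≤ ‖c j‖
          rw [norm_mul, norm_mul, Complex.norm_conj]
          have h1 := SSp_norm_EE (k j) (l j) x
          have h2 := SSp_norm_EE (k i) (l i) x
          calc ‖c j‖ * ‖EE (k j) (l j) x‖ * ‖EE (k i) (l i) x‖ ≤ ‖c j‖ * 1 * 1 := by gcongr
            _ = ‖c j‖ := by ring
      _ = ‖c j‖ * (volume.restrict (Set.Icc (0 : X) 1)).real Set.univ := by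
          rw [integral_const, smul_eq_mul, mul_comm]
  have hsum : Summable fun j =>
      ∫ x in Set.Icc (0 : X) 1, ‖c j * EE (k j) (l j) x * conj (EE (k i) (l i) x)‖ := by
    apply Summable.of_nonneg_of_le _ hbd (hc.mul_right _)
    intro j
    exact integral_nonneg fun x => norm_nonneg _
  have hex := integral_tsum_of_summable_integral_norm hintc hsum
  have e1 : (fun x : X => SS k l c x * conj (EE (k i) (l i) x))
      = fun x : X => ∑' j, c j * EE (k j) (l j) x * conj (EE (k i) (l i) x) := by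
    funext x
    unfold SS
    rw [tsum_mul_right]
  rw [e1, ← hex]
  have e2 : ∀ j, ∫ x in Set.Icc (0 : X) 1, c j * EE (k j) (l j) x * conj (EE (k i) (l i) x)
      = c j * ∫ x in Set.Icc (0 : X) 1, EE (k j) (l j) x * conj (EE (k i) (l i) x) := by
    intro j
    rw [← integral_const_mul]
    congr 1
    funext x
    ring
  rw [tsum_congr e2, tsum_eq_single i]
  · congr 1
    rw [← integral_complex_ofReal]
    congr 1
    funext x
    rw [Complex.mul_conj, Complex.normSq_eq_norm_sq]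
  · intro j hj
    rw [SSp_orth _ _ _ _ (fun h => hj (hk.injective h)), mul_zero]


end Pool.Agent.Helper112.Kohn
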