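import Pool.Agent.Helper112.Kohn.Ex

open scoped ContDiff ComplexConjugate Real ComplexOrder
open MeasureTheory

noncomputable section

namespace Pool.Agent.Helper112.Kohn

/-! TO PROVE -/

theorem liouville : ∃ (β : ℝ) (k : ℕ → ℕ) (l : ℕ → ℤ), StrictMono k ∧ (∀ j, 1 ≤ k j) ∧
    (∀ j, |l j| ≤ k j) ∧ ∀ j, 0 < l j + β * k j ∧
      40 * (l j + β * k j) ^ 2 ≤ Real.exp (-((k j : ℝ) ^ 2)) := by
  obtain ⟨N, hN⟩ : ∃ N : ℕ → ℕ, N = fun a : ℕ => ⌈160 * Real.exp ((a : ℝ) ^ 2)⌉₊ := ⟨_, rfl⟩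
  have hNle : ∀ a : ℕ, 160 * Real.exp ((a : ℝ) ^ 2) ≤ N a := by
    intro a
    rw [hN]
    exact Nat.le_ceil _
  have hN160 : ∀ a, (160 : ℝ) ≤ N a := by
    intro a
    have h1 : (1 : ℝ) ≤ Real.exp ((a : ℝ) ^ 2) := Real.one_le_exp (by positivity)
    linarith [hNle a]
  obtain ⟨p, hp0, hps⟩ : ∃ p : ℕ → ℕ × ℤ, p 0 = (2, -1) ∧
      ∀ j, p (j + 1) = ((p j).1 * N (p j).1, (N (p j).1 : ℤ) * (p j).2 - 1) :=
    ⟨fun n => Nat.rec (2, -1) (fun _ q => (q.1 * N q.1, (N q.1 : ℤ) * q.2 - 1)) n, rfl,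
      fun _ => rfl⟩
  obtain ⟨a, ha⟩ : ∃ a : ℕ → ℕ, a = fun j => (p j).1 := ⟨_, rfl⟩
  obtain ⟨l, hl⟩ : ∃ l : ℕ → ℤ, l = fun j => (p j).2 := ⟨_, rfl⟩
  have ha0 : a 0 = 2 := by rw [ha]; simp [hp0]
  have hl0 : l 0 = -1 := by rw [hl]; simp [hp0]
  have has : ∀ j, a (j + 1) = a j * N (a j) := by
    intro j
    rw [ha]
    show (p (j + 1)).1 = _
    rw [hps]
  have hls : ∀ j, l (j + 1) = (N (a j) : ℤ) * l j - 1 := by
    intro j
    rw [hl, ha]
    show (p (j + 1)).2 = _
    rw [hps]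
  have haR : ∀ j, (a (j + 1) : ℝ) = a j * N (a j) := by
    intro j
    rw [has]
    push_cast
    ring
  have hlR : ∀ j, (l (j + 1) : ℝ) = N (a j) * l j - 1 := by
    intro j
    rw [hls]
    push_cast
    ring
  have hap : ∀ j, (0 : ℝ) < a j := by
    intro j
    induction j with
    | zero => rw [ha0]; norm_num
    | succ j ih =>
      rw [haR]
      have := hN160 (a j)
      positivity
  have hgrow : ∀ j, 160 * (a j : ℝ) ≤ a (j + 1) := by
    intro j
    rw [haR]
    nlinarith [hap j, hN160 (a j)]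
  -- partial sums
  obtain ⟨s, hs⟩ : ∃ s : ℕ → ℝ, s = fun j => -(l j : ℝ) / a j := ⟨_, rfl⟩
  have hsv : ∀ j, s j = -(l j : ℝ) / a j := fun j => by rw [hs]
  have hss : ∀ j, s (j + 1) = s j + 1 / a (j + 1) := by
    intro j
    rw [hsv, hsv, hlR, haR]
    have h1 := (hap j).ne'
    have h2 : (N (a j) : ℝ) ≠ 0 := by
      have := hN160 (a j)
      positivity
    field_simp
    ring
  have hs0 : s 0 = 1 / 2 := by
    rw [hsv, hl0, ha0]
    norm_num
  have hsmono : Monotone s := by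
    refine monotone_nat_of_le_succ fun j => ?_
    rw [hss]
    have := hap (j + 1)
    have : 0 ≤ 1 / (a (j + 1) : ℝ) := by positivity
    linarith
  obtain ⟨t, ht⟩ : ∃ t : ℕ → ℝ, t = fun j => s j + 2 / a (j + 1) := ⟨_, rfl⟩
  have htv : ∀ j, t j = s j + 2 / a (j + 1) := fun j => by rw [ht]
  have htanti : Antitone t := by
    refine antitone_nat_of_succ_le fun j => ?_
    rw [htv, htv, hss]
    have h1 := hap (j + 1)
    have h2 : 2 / (a (j + 1 + 1) : ℝ) ≤ 1 / a (j + 1) := by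
      rw [div_le_div_iff₀ (hap _) h1]
      linarith [hgrow (j + 1)]
    have h3 : 2 / (a (j + 1) : ℝ) = 1 / a (j + 1) + 1 / a (j + 1) := by ring
    rw [h3]
    linarith
  have hst : ∀ j, s j ≤ t j := by
    intro j
    rw [htv]
    have := hap (j + 1)
    have : 0 ≤ 2 / (a (j + 1) : ℝ) := by positivity
    linarith
  have hall : ∀ i j, s i ≤ t j := by
    intro i j
    rcases le_total i j with h | h
    · exact (hsmono h).trans (hst j)
    · exact (hst i).trans (htanti h)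
  have hbdd : BddAbove (Set.range s) := ⟨t 0, by rintro _ ⟨i, rfl⟩; exact hall i 0⟩
  obtain ⟨β, hβ⟩ : ∃ β : ℝ, β = ⨆ i, s i := ⟨_, rfl⟩
  have hβs : ∀ i, s i ≤ β := fun i => by rw [hβ]; exact le_ciSup hbdd i
  have hβt : ∀ j, β ≤ t j := fun j => by rw [hβ]; exact ciSup_le fun i => hall i j
  have hls' : ∀ j, (l j : ℝ) = -(s j * a j) := by
    intro j
    rw [hsv]
    have := (hap j).ne'
    field_simp
  refine ⟨β, a, l, ?_, ?_, ?_, ?_⟩
  · refine strictMono_nat_of_lt_succ fun j => ?_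
    have h1 : (a j : ℝ) < a (j + 1) := by linarith [hgrow j, hap j]
    exact_mod_cast h1
  · intro j
    have := hap j
    have h1 : 0 < a j := by exact_mod_cast this
    exact h1
  · intro j
    have h1 : (0 : ℝ) ≤ s j := by
      have := hsmono (Nat.zero_le j)
      rw [hs0] at this
      linarith
    have h2 : s j ≤ 1 := by
      have h3 := hall j 0
      rw [htv, hs0] at h3
      have h4 : 2 / (a (0 + 1) : ℝ) ≤ 1 / 2 := by
        rw [div_le_div_iff₀ (hap _) (by norm_num)]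
        have := hgrow 0
        rw [ha0] at this
        push_cast at this
        linarith
      linarith
    have h5 : |(l j : ℝ)| ≤ a j := by
      rw [hls', abs_neg, abs_mul, abs_of_nonneg h1, abs_of_nonneg (hap j).le]
      nlinarith [hap j]
    have h6 : ((|l j| : ℤ) : ℝ) ≤ ((a j : ℤ) : ℝ) := by
      push_cast
      exact h5
    exact_mod_cast h6
  · intro j
    have h1 : (l j : ℝ) + β * a j = (β - s j) * a j := by
      rw [hls']
      ring
    have h2 : 0 < β - s j := by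
      have h3 := hβs (j + 1)
      rw [hss] at h3
      have h4 := hap (j + 1)
      have : 0 < 1 / (a (j + 1) : ℝ) := by positivity
      linarith
    have h3 : (β - s j) * a j ≤ 2 / N (a j) := by
      have h4 := hβt j
      rw [htv] at h4
      have h5 : β - s j ≤ 2 / a (j + 1) := by linarith
      have h6 := mul_le_mul_of_nonneg_right h5 (hap j).le
      refine h6.trans (le_of_eq ?_)
      rw [haR]
      have h7 := (hap j).ne'
      have h8 : (N (a j) : ℝ) ≠ 0 := by
        have := hN160 (a j)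
        positivity
      field_simp
    refine ⟨by rw [h1]; exact mul_pos h2 (hap j), ?_⟩
    rw [h1]
    have h9 : 0 ≤ (β - s j) * a j := (mul_pos h2 (hap j)).le
    have h10 : ((β - s j) * a j) ^ 2 ≤ (2 / N (a j)) ^ 2 := pow_le_pow_left₀ h9 h3 2
    have hNp : (0 : ℝ) < N (a j) := by linarith [hN160 (a j)]
    have h11 : 40 * (2 / (N (a j) : ℝ)) ^ 2 ≤ Real.exp (-((a j : ℝ) ^ 2)) := by
      rw [Real.exp_neg, div_pow]
      have h12 : 40 * (2 ^ 2 / (N (a j) : ℝ) ^ 2) = 160 / (N (a j) : ℝ) ^ 2 := by ring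
      rw [h12, div_le_iff₀ (by positivity), inv_mul_eq_div, le_div_iff₀ (Real.exp_pos _)]
      have h13 := hNle (a j)
      nlinarith [hN160 (a j)]
    linarith

end Pool.Agent.Helper112.Kohn
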