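import Pool.Agent.Helper112.Kohn.Ex

open scoped ContDiff ComplexConjugate Real ComplexOrder
open MeasureTheory

noncomputable section

namespace Pool.Agent.Helper112.Kohn

/-! TO PROVE -/

theorem contr {C c δ : ℝ} (hc : 0 < c) (hδ : 0 < δ) {k : ℕ → ℕ} (hk : StrictMono k)
    (h : ∀ j, 1 ≤ k j ∧ Real.exp (-Real.sqrt (k j)) * (c / k j) ≤ C * Real.exp (-δ * k j)) :
    False := by
  obtain ⟨j, hj⟩ := exists_nat_gt (max (4 / δ ^ 2) (8 * |C| / (c * δ ^ 2)))
  have hjk : (j : ℝ) ≤ k j := by exact_mod_cast hk.id_le j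
  obtain ⟨h1, h2⟩ := h j
  have hK : (0 : ℝ) < k j := by exact_mod_cast h1
  set K : ℝ := (k j : ℝ) with hKdef
  have hK1 : 4 / δ ^ 2 ≤ K := ((le_max_left _ _).trans hj.le).trans hjk
  have hK2 : 8 * |C| / (c * δ ^ 2) < K := ((le_max_right _ _).trans_lt hj).trans_le hjk
  have hδ2 : 0 < δ ^ 2 := by positivity
  have hs0 : 0 < Real.sqrt K := Real.sqrt_pos.2 hK
  have hsq : Real.sqrt K * Real.sqrt K = K := Real.mul_self_sqrt hK.le
  have hs1 : 2 / δ ≤ Real.sqrt K := by
    apply Real.le_sqrt_of_sq_le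
    refine le_trans (le_of_eq ?_) hK1
    rw [div_pow]; norm_num
  have hs2 : Real.sqrt K ≤ δ * K / 2 := by
    have h3 : 1 ≤ δ * Real.sqrt K / 2 := by
      rw [div_le_iff₀ hδ] at hs1
      linarith
    calc Real.sqrt K = 1 * Real.sqrt K := (one_mul _).symm
      _ ≤ (δ * Real.sqrt K / 2) * Real.sqrt K := mul_le_mul_of_nonneg_right h3 hs0.le
      _ = δ * (Real.sqrt K * Real.sqrt K) / 2 := by ring
      _ = δ * K / 2 := by rw [hsq]
  have hexp : (δ * K / 2) ^ 2 / 2 ≤ Real.exp (δ * K / 2) := by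
    have := Real.quadratic_le_exp_of_nonneg (x := δ * K / 2) (by positivity)
    have h4 : 0 ≤ δ * K / 2 := by positivity
    linarith
  have h5 : c ≤ C * (K * Real.exp (Real.sqrt K - δ * K)) := by
    have h6 : Real.exp (-Real.sqrt K) * (c / K) * (K * Real.exp (Real.sqrt K)) ≤
        C * Real.exp (-δ * K) * (K * Real.exp (Real.sqrt K)) :=
      mul_le_mul_of_nonneg_right h2 (by positivity)
    have e1 : Real.exp (-Real.sqrt K) * (c / K) * (K * Real.exp (Real.sqrt K)) = c := by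
      have e2 : Real.exp (-Real.sqrt K) * Real.exp (Real.sqrt K) = 1 := by
        rw [← Real.exp_add]; simp
      calc Real.exp (-Real.sqrt K) * (c / K) * (K * Real.exp (Real.sqrt K))
          = (Real.exp (-Real.sqrt K) * Real.exp (Real.sqrt K)) * (c / K * K) := by ring
        _ = c := by rw [e2, div_mul_cancel₀ _ hK.ne', one_mul]
    have e3 : C * Real.exp (-δ * K) * (K * Real.exp (Real.sqrt K)) =
        C * (K * Real.exp (Real.sqrt K - δ * K)) := by
      have e4 : Real.exp (Real.sqrt K - δ * K) = Real.exp (-δ * K) * Real.exp (Real.sqrt K) := by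
        rw [← Real.exp_add]; congr 1; ring
      rw [e4]; ring
    rw [e1, e3] at h6
    exact h6
  have h7 : Real.exp (Real.sqrt K - δ * K) * ((δ * K / 2) ^ 2 / 2) ≤ 1 := by
    calc Real.exp (Real.sqrt K - δ * K) * ((δ * K / 2) ^ 2 / 2)
        ≤ Real.exp (Real.sqrt K - δ * K) * Real.exp (δ * K / 2) :=
          mul_le_mul_of_nonneg_left hexp (Real.exp_pos _).le
      _ = Real.exp (Real.sqrt K - δ * K / 2) := by rw [← Real.exp_add]; congr 1; ring
      _ ≤ Real.exp 0 := Real.exp_le_exp.2 (by linarith)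
      _ = 1 := Real.exp_zero
  have h8 : c ≤ |C| * (K * Real.exp (Real.sqrt K - δ * K)) :=
    h5.trans (mul_le_mul_of_nonneg_right (le_abs_self C) (by positivity))
  have h9 : 8 * |C| < K * (c * δ ^ 2) := by
    rw [div_lt_iff₀ (by positivity)] at hK2
    exact hK2
  have h10 : c * (δ ^ 2 * K) ≤ 8 * |C| := by
    have h11 : Real.exp (Real.sqrt K - δ * K) * (δ ^ 2 * K ^ 2) ≤ 8 := by
      have : Real.exp (Real.sqrt K - δ * K) * ((δ * K / 2) ^ 2 / 2) =
        Real.exp (Real.sqrt K - δ * K) * (δ ^ 2 * K ^ 2) / 8 := by ring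
      rw [this] at h7
      linarith
    calc c * (δ ^ 2 * K) ≤ |C| * (K * Real.exp (Real.sqrt K - δ * K)) * (δ ^ 2 * K) :=
          mul_le_mul_of_nonneg_right h8 (by positivity)
      _ = |C| * (Real.exp (Real.sqrt K - δ * K) * (δ ^ 2 * K ^ 2)) := by ring
      _ ≤ |C| * 8 := mul_le_mul_of_nonneg_left h11 (abs_nonneg _)
      _ = 8 * |C| := by ring
  nlinarith

theorem summ {k : ℕ → ℕ} (hk : StrictMono k) (r : ℕ) :
    Summable fun j => ‖((Real.exp (-Real.sqrt (k j)) : ℝ) : ℂ)‖ * (k j : ℝ) ^ r := by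
  have hg : Summable fun n : ℕ => Real.exp (-Real.sqrt (n : ℝ)) * (n : ℝ) ^ r := by
    have h2 : Summable fun n : ℕ => ((2 * r + 4).factorial : ℝ) * (1 / (n : ℝ) ^ 2) :=
      (Real.summable_one_div_nat_pow.2 (by norm_num)).mul_left _
    refine Summable.of_norm_bounded_eventually_nat h2 ?_
    filter_upwards [Filter.eventually_ge_atTop 1] with n hn
    have hn' : (0 : ℝ) < n := by exact_mod_cast hn
    rw [Real.norm_eq_abs, abs_of_nonneg (by positivity), mul_one_div, le_div_iff₀ (by positivity)]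
    have h3 := Real.pow_div_factorial_le_exp (x := Real.sqrt (n : ℝ)) (Real.sqrt_nonneg _)
      (2 * r + 4)
    have h4 : Real.sqrt (n : ℝ) ^ (2 * r + 4) = (n : ℝ) ^ (r + 2) := by
      have : 2 * r + 4 = 2 * (r + 2) := by ring
      rw [this, pow_mul, Real.sq_sqrt hn'.le]
    have hf : (0 : ℝ) < ((2 * r + 4).factorial : ℝ) := by exact_mod_cast Nat.factorial_pos _
    rw [h4, div_le_iff₀ hf] at h3
    have h5 : Real.exp (-Real.sqrt (n : ℝ)) * Real.exp (Real.sqrt (n : ℝ)) = 1 := by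
      rw [← Real.exp_add]; simp
    calc Real.exp (-Real.sqrt (n : ℝ)) * (n : ℝ) ^ r * (n : ℝ) ^ 2
        = Real.exp (-Real.sqrt (n : ℝ)) * (n : ℝ) ^ (r + 2) := by rw [pow_add]; ring
      _ ≤ Real.exp (-Real.sqrt (n : ℝ)) * (Real.exp (Real.sqrt (n : ℝ)) *
            ((2 * r + 4).factorial : ℝ)) := mul_le_mul_of_nonneg_left h3 (Real.exp_pos _).le
      _ = ((2 * r + 4).factorial : ℝ) := by rw [← mul_assoc, h5, one_mul]
  have h := hg.comp_injective hk.injective
  refine h.congr (fun j => ?_)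
  simp only [Function.comp]
  rw [Complex.norm_real, Real.norm_eq_abs, abs_of_pos (Real.exp_pos _)]

end Pool.Agent.Helper112.Kohn
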