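import Pool.Agent.Helper112.Kohn.Ex

open scoped ContDiff ComplexConjugate Real ComplexOrder
open MeasureTheory

noncomputable section

namespace Pool.Agent.Helper112.Kohn

/-! TO PROVE -/

theorem det5 (a b c s β : ℂ) : Matrix.det !![1, a, b, 0, 0; 0, β, 0, 1, -Complex.I;
    1, -a, -b, 0, 0; 0, β, 0, 1, Complex.I; 0, c, s, 0, 0]
   = 4 * Complex.I * (a * s - b * c) := by
  rw [Matrix.det_succ_row_zero]
  simp only [Fin.sum_univ_succ]
  simp (config := {maxSteps := 1000000}) [Matrix.det_succ_row_zero, Fin.sum_univ_succ,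
    Fin.succAbove, Matrix.det_unique]
  ring

theorem frame_det (β : ℝ) (x : X) : (frame (LL β) TT x).det = ((8 * π : ℝ) : ℂ) := by
  have hsc : ((Real.sin (2 * π * x 0) : ℝ) : ℂ) ^ 2 + ((Real.cos (2 * π * x 0) : ℝ) : ℂ) ^ 2 = 1 := by
    rw [← Complex.ofReal_pow, ← Complex.ofReal_pow, ← Complex.ofReal_add, Real.sin_sq_add_cos_sq]
    simp
  have hm : frame (LL β) TT x = !![1, Complex.I * ((2 * π * Real.sin (2 * π * x 0) : ℝ) : ℂ),
      -(Complex.I * ((2 * π * Real.cos (2 * π * x 0) : ℝ) : ℂ)), 0, 0;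
      0, (β : ℂ), 0, 1, -Complex.I;
      1, -(Complex.I * ((2 * π * Real.sin (2 * π * x 0) : ℝ) : ℂ)),
      -(-(Complex.I * ((2 * π * Real.cos (2 * π * x 0) : ℝ) : ℂ))), 0, 0;
      0, (β : ℂ), 0, 1, Complex.I;
      0, -((Real.cos (2 * π * x 0) : ℝ) : ℂ), -((Real.sin (2 * π * x 0) : ℝ) : ℂ), 0, 0] := by
    unfold frame LL TT bar
    ext i j
    have h2 : (starRingEnd ℂ) 2 = 2 := Complex.conj_ofNat 2
    fin_cases i <;> fin_cases j <;>
      simp [Matrix.of_apply, -Complex.ofReal_sin, -Complex.ofReal_cos, h2]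
  rw [hm, det5]
  generalize Real.sin (2 * π * x 0) = sx at *
  generalize Real.cos (2 * π * x 0) = cx at *
  push_cast
  have hI := Complex.I_mul_I
  linear_combination (-8 * (π:ℂ) * Complex.I * Complex.I) * hsc - 8 * π * hI

theorem vol_eq (β : ℝ) (x : X) : vol (LL β) TT x = (8 * π)⁻¹ := by
  unfold vol
  rw [frame_det, Complex.norm_real, Real.norm_of_nonneg (by positivity)]

theorem LL_line (β : ℝ) (j : Fin 2) (i : Fin 5) (x : X) (t : ℝ) :
    LL β j (x + t • Pi.single i 1) i = LL β j x i := by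
  unfold LL
  fin_cases j <;> fin_cases i <;> simp

theorem LL_contDiff (β : ℝ) (j : Fin 2) (i : Fin 5) : ContDiff ℝ ∞ (fun x => LL β j x i) := by
  have h1 : ContDiff ℝ ∞ (fun x : X => ((2 * π * Real.sin (2 * π * x 0) : ℝ) : ℂ)) := by
    have h0 : ContDiff ℝ ∞ (fun x : X => 2 * π * Real.sin (2 * π * x 0)) := by fun_prop
    exact Complex.ofRealCLM.contDiff.comp h0
  have h2 : ContDiff ℝ ∞ (fun x : X => ((2 * π * Real.cos (2 * π * x 0) : ℝ) : ℂ)) := by
    have h0 : ContDiff ℝ ∞ (fun x : X => 2 * π * Real.cos (2 * π * x 0)) := by fun_prop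
    exact Complex.ofRealCLM.contDiff.comp h0
  have h3 : ContDiff ℝ ∞ (fun x : X => Complex.I * ((2 * π * Real.sin (2 * π * x 0) : ℝ) : ℂ)) :=
    contDiff_const.mul h1
  have h4 : ContDiff ℝ ∞ (fun x : X => -(Complex.I * ((2 * π * Real.cos (2 * π * x 0) : ℝ) : ℂ))) :=
    (contDiff_const.mul h2).neg
  fin_cases j
  · fin_cases i
    · exact contDiff_const
    · exact h3
    · exact h4
    · exact contDiff_const
    · exact contDiff_const
  · fin_cases i <;> exact contDiff_const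

theorem pd_mul (β : ℝ) (j : Fin 2) (i : Fin 5) {f : X → ℂ} (hf : Differentiable ℝ f) (x : X) :
    pd i (fun y => LL β j y i * f y) x = LL β j x i * pd i f x := by
  unfold pd
  have hL : Differentiable ℝ (fun y => LL β j y i) := (LL_contDiff β j i).differentiable (by simp)
  have hLf : DifferentiableAt ℝ (fun y => LL β j y i * f y) x := (hL x).mul (hf x)
  rw [← hLf.lineDeriv_eq_fderiv, ← (hf x).lineDeriv_eq_fderiv]
  unfold lineDeriv
  have h1 : (fun t : ℝ => ((fun y => LL β j y i) * f) (x + t • Pi.single i 1)) =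
      fun t : ℝ => LL β j x i * f (x + t • Pi.single i 1) := by
    funext t
    show LL β j (x + t • Pi.single i 1) i * f (x + t • Pi.single i 1) = _
    rw [LL_line]
  have h2 : (fun t : ℝ => (fun y => LL β j y i * f y) (x + t • Pi.single i 1)) =
      fun t : ℝ => LL β j x i * f (x + t • Pi.single i 1) := h1
  first
    | rw [h1]
    | rw [h2]
  exact deriv_const_mul_field _

theorem adj_eq (β : ℝ) (j : Fin 2) {f : X → ℂ} (hf : Differentiable ℝ f) (x : X) :
    adj (vol (LL β) TT) (bar (LL β j)) f x = - app (LL β j) f x := by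
  unfold adj app
  have hL : ∀ i, Differentiable ℝ (fun y => LL β j y i) := fun i =>
    (LL_contDiff β j i).differentiable (by simp)
  have h1 : ∀ i, pd i (fun y => ((vol (LL β) TT y : ℝ) : ℂ) * conj (bar (LL β j) y i) * f y) x =
      (((8 * π)⁻¹ : ℝ) : ℂ) * (LL β j x i * pd i f x) := by
    intro i
    rw [← pd_mul β j i hf x]
    have h2 : (fun y => ((vol (LL β) TT y : ℝ) : ℂ) * conj (bar (LL β j) y i) * f y) =
        fun y => (((8 * π)⁻¹ : ℝ) : ℂ) * (LL β j y i * f y) := by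
      funext y
      rw [vol_eq]
      simp only [bar, Complex.conj_conj]
      ring
    rw [h2]
    unfold pd
    have hLf : DifferentiableAt ℝ (fun y => LL β j y i * f y) x := (hL i x).mul (hf x)
    have h5 := fderiv_const_mul hLf (((8 * π)⁻¹ : ℝ) : ℂ)
    rw [h5]
    rfl
  simp only [h1]
  rw [← Finset.mul_sum, vol_eq]
  have h3 : (((8 * π)⁻¹ : ℝ) : ℂ) ≠ 0 := by
    rw [Complex.ofReal_ne_zero]
    positivity
  field_simp

theorem pd_contDiff (i : Fin 5) {f : X → ℂ} (hf : ContDiff ℝ ∞ f) : ContDiff ℝ ∞ (pd i f) := by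
  unfold pd
  exact (hf.fderiv_right (m := ∞) (by simp)).clm_apply contDiff_const

theorem app_contDiff (β : ℝ) (j : Fin 2) {f : X → ℂ} (hf : ContDiff ℝ ∞ f) :
    ContDiff ℝ ∞ (app (LL β j) f) ∧ ContDiff ℝ ∞ (app (bar (LL β j)) f) := by
  constructor
  · unfold app
    exact ContDiff.sum fun i _ => (LL_contDiff β j i).mul (pd_contDiff i hf)
  · unfold app bar
    exact ContDiff.sum fun i _ =>
      (Complex.conjCLE.contDiff.comp (LL_contDiff β j i)).mul (pd_contDiff i hf)

theorem LL_per (β : ℝ) (j : Fin 2) (x : X) (k : Fin 5 → ℤ) :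
    LL β j (fun i => x i + k i) = LL β j x := by
  have hs : Real.sin (2 * π * (x 0 + k 0)) = Real.sin (2 * π * x 0) := by
    rw [show 2 * π * (x 0 + k 0) = 2 * π * x 0 + (k 0) * (2 * π) by ring,
      Real.sin_add_int_mul_two_pi]
  have hc : Real.cos (2 * π * (x 0 + k 0)) = Real.cos (2 * π * x 0) := by
    rw [show 2 * π * (x 0 + k 0) = 2 * π * x 0 + (k 0) * (2 * π) by ring,
      Real.cos_add_int_mul_two_pi]
  unfold LL
  fin_cases j
  · show (![1, Complex.I * ((2 * π * Real.sin (2 * π * (x 0 + k 0)) : ℝ) : ℂ),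
      -(Complex.I * ((2 * π * Real.cos (2 * π * (x 0 + k 0)) : ℝ) : ℂ)), 0, 0] : Fin 5 → ℂ) = _
    rw [hs, hc]
    rfl
  · rfl

theorem pd_per (i : Fin 5) {f : X → ℂ} (hp : Per f) : Per (pd i f) := by
  intro x k
  unfold pd
  have h1 : (fun y : X => f (y + fun i => (k i : ℝ))) = f := by
    funext y
    exact hp y k
  have h2 : fderiv ℝ (fun y : X => f (y + fun i => (k i : ℝ))) x =
      fderiv ℝ f (x + fun i => (k i : ℝ)) := fderiv_comp_add_right _
  rw [h1] at h2
  have h3 : (fun i => x i + (k i : ℝ)) = (x + fun i => (k i : ℝ)) := rfl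
  rw [h3, ← h2]

theorem app_per (β : ℝ) (j : Fin 2) {f : X → ℂ} (hf : ContDiff ℝ ∞ f) (hp : Per f) :
    Per (app (LL β j) f) ∧ Per (app (bar (LL β j)) f) := by
  constructor
  · intro x k
    unfold app
    refine Finset.sum_congr rfl fun i _ => ?_
    rw [LL_per, pd_per i hp x k]
  · intro x k
    unfold app bar
    refine Finset.sum_congr rfl fun i _ => ?_
    rw [LL_per, pd_per i hp x k]

end Pool.Agent.Helper112.Kohn
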