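import Pool.Agent.Helper112.Kohn.Ex

open scoped ContDiff ComplexConjugate Real ComplexOrder
open MeasureTheory

noncomputable section

namespace Pool.Agent.Helper112.Kohn

theorem EE_hasFD (k : ℕ) (l : ℤ) (x : X) : HasFDerivAt (EE k l)
    (EE k l x • ((2 * (π : ℂ)) • (Complex.ofRealCLM.comp ((k : ℝ) •
      (-(Real.sin (2 * π * x 0)) • ((2 * π) • (ContinuousLinearMap.proj 0 : X →L[ℝ] ℝ)))) +
      Complex.I • Complex.ofRealCLM.comp ((k : ℝ) • (ContinuousLinearMap.proj 1 : X →L[ℝ] ℝ) +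
        (l : ℝ) • (ContinuousLinearMap.proj 3 : X →L[ℝ] ℝ))))) x := by
  have h0 : ∀ i : Fin 5, HasFDerivAt (fun x : X => x i)
      (ContinuousLinearMap.proj i : X →L[ℝ] ℝ) x := fun i =>
    (ContinuousLinearMap.proj i : X →L[ℝ] ℝ).hasFDerivAt
  have h1 : HasFDerivAt (fun x : X => Real.cos (2 * π * x 0))
      (-(Real.sin (2 * π * x 0)) • ((2 * π) • (ContinuousLinearMap.proj 0 : X →L[ℝ] ℝ))) x :=
    ((h0 0).const_mul (2 * π)).cos
  have h2 : HasFDerivAt (fun x : X => (k : ℝ) * (Real.cos (2 * π * x 0) - 1))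
      ((k : ℝ) • (-(Real.sin (2 * π * x 0)) • ((2 * π) •
        (ContinuousLinearMap.proj 0 : X →L[ℝ] ℝ)))) x := (h1.sub_const 1).const_mul (k : ℝ)
  have h3 : HasFDerivAt (fun x : X => (k : ℝ) * x 1 + (l : ℝ) * x 3)
      ((k : ℝ) • (ContinuousLinearMap.proj 1 : X →L[ℝ] ℝ) +
        (l : ℝ) • (ContinuousLinearMap.proj 3 : X →L[ℝ] ℝ)) x :=
    ((h0 1).const_mul (k : ℝ)).add ((h0 3).const_mul (l : ℝ))
  have h4 := Complex.ofRealCLM.hasFDerivAt.comp x h2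
  have h5 := Complex.ofRealCLM.hasFDerivAt.comp x h3
  have h6 := (h4.add (h5.const_mul Complex.I)).const_mul (2 * (π : ℂ))
  exact h6.cexp

theorem EE_pd (k : ℕ) (l : ℤ) (x : X) (i : Fin 5) : pd i (EE k l) x =
    EE k l x * ((2 * (π : ℂ)) * ((((k : ℝ) * (-(Real.sin (2 * π * x 0)) *
      ((2 * π) * (Pi.single i 1 : X) 0)) : ℝ) : ℂ) +
      Complex.I * (((k : ℝ) * (Pi.single i 1 : X) 1 + (l : ℝ) * (Pi.single i 1 : X) 3 : ℝ) : ℂ))) := by
  unfold pd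
  rw [(EE_hasFD k l x).fderiv]
  rfl

/-! TO PROVE -/

theorem EE_contDiff (k : ℕ) (l : ℤ) : ContDiff ℝ ∞ (EE k l) := by
  have h0 : ∀ i : Fin 5, ContDiff ℝ ∞ (fun x : X => x i) := fun i => contDiff_apply ℝ ℝ i
  have h2 : ContDiff ℝ ∞ (fun x : X => (k : ℝ) * (Real.cos (2 * π * x 0) - 1)) :=
    contDiff_const.mul (((contDiff_const.mul (h0 0)).cos).sub contDiff_const)
  have h3 : ContDiff ℝ ∞ (fun x : X => (k : ℝ) * x 1 + (l : ℝ) * x 3) :=
    (contDiff_const.mul (h0 1)).add (contDiff_const.mul (h0 3))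
  have h4 := Complex.ofRealCLM.contDiff.comp h2
  have h5 := Complex.ofRealCLM.contDiff.comp h3
  exact (contDiff_const.mul (h4.add (contDiff_const.mul h5))).cexp

theorem EE_per (k : ℕ) (l : ℤ) : Per (EE k l) := by
  intro x m
  unfold EE
  have h1 : Real.cos (2 * π * (x 0 + m 0)) = Real.cos (2 * π * x 0) := by
    have : 2 * π * (x 0 + m 0) = 2 * π * x 0 + (m 0 : ℝ) * (2 * π) := by ring
    rw [this, Real.cos_add_int_mul_two_pi]
  rw [h1]
  have h2 : (2 * (π : ℂ) * ((((k : ℝ) * (Real.cos (2 * π * x 0) - 1) : ℝ) : ℂ) +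
    Complex.I * (((k : ℝ) * (x 1 + m 1) + (l : ℝ) * (x 3 + m 3) : ℝ) : ℂ))) =
    (2 * (π : ℂ) * ((((k : ℝ) * (Real.cos (2 * π * x 0) - 1) : ℝ) : ℂ) +
    Complex.I * (((k : ℝ) * x 1 + (l : ℝ) * x 3 : ℝ) : ℂ))) +
      ((k * m 1 + l * m 3 : ℤ) : ℂ) * (2 * π * Complex.I) := by
    push_cast
    ring
  rw [h2, Complex.exp_add, Complex.exp_int_mul_two_pi_mul_I, mul_one]

theorem EE_norm_le (k : ℕ) (l : ℤ) (x : X) : ‖EE k l x‖ ≤ 1 := by
  unfold EE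
  rw [Complex.norm_exp]
  have h1 : (2 * (π : ℂ) * ((((k : ℝ) * (Real.cos (2 * π * x 0) - 1) : ℝ) : ℂ) +
    Complex.I * (((k : ℝ) * x 1 + (l : ℝ) * x 3 : ℝ) : ℂ))).re =
      2 * π * ((k : ℝ) * (Real.cos (2 * π * x 0) - 1)) := by
    have e : (2 * (π : ℂ) * ((((k : ℝ) * (Real.cos (2 * π * x 0) - 1) : ℝ) : ℂ) +
      Complex.I * (((k : ℝ) * x 1 + (l : ℝ) * x 3 : ℝ) : ℂ))) =
      ((2 * π : ℝ) : ℂ) * ((((k : ℝ) * (Real.cos (2 * π * x 0) - 1) : ℝ) : ℂ) +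
      Complex.I * (((k : ℝ) * x 1 + (l : ℝ) * x 3 : ℝ) : ℂ)) := by push_cast; ring
    rw [e, Complex.re_ofReal_mul, Complex.add_re, Complex.ofReal_re, Complex.mul_re,
      Complex.I_re, Complex.I_im, Complex.ofReal_re, Complex.ofReal_im]
    ring
  rw [h1]
  have h2 : Real.cos (2 * π * x 0) ≤ 1 := Real.cos_le_one _
  have h3 : 2 * π * ((k : ℝ) * (Real.cos (2 * π * x 0) - 1)) ≤ 0 :=
    mul_nonpos_of_nonneg_of_nonpos (by positivity)
      (mul_nonpos_of_nonneg_of_nonpos (by positivity) (by linarith))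
  exact Real.exp_le_one_iff.2 h3

theorem EE_L1 (β : ℝ) (k : ℕ) (l : ℤ) (x : X) : app (bar (LL β 0)) (EE k l) x = 0 := by
  unfold app
  rw [Fin.sum_univ_five]
  simp only [EE_pd]
  have h2 : (starRingEnd ℂ) (2 : ℂ) = 2 := map_ofNat _ 2
  have hs : (starRingEnd ℂ) (Complex.sin (2 * π * (x 0))) = Complex.sin (2 * π * (x 0)) := by
    rw [← Complex.sin_conj]
    simp [h2]
  simp [bar, LL, hs, h2]
  ring_nf
  rw [Complex.I_sq]
  ring

theorem EE_L2 (β : ℝ) (k : ℕ) (l : ℤ) (x : X) :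
    app (LL β 1) (EE k l) x = 2 * π * Complex.I * ((l + β * k : ℝ) : ℂ) * EE k l x ∧
    app (bar (LL β 1)) (EE k l) x = 2 * π * Complex.I * ((l + β * k : ℝ) : ℂ) * EE k l x := by
  constructor
  · unfold app
    rw [Fin.sum_univ_five]
    simp only [EE_pd]
    simp [LL]
    ring
  · unfold app
    rw [Fin.sum_univ_five]
    simp only [EE_pd]
    simp [bar, LL]
    ring

end Pool.Agent.Helper112.Kohn
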