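import Pool.Agent.Helper112.Kohn.Ex
import Pool.Agent.Helper112.Kohn.K3
import Pool.Agent.Helper112.Kohn.K6
import Pool.Agent.Helper112.Kohn.K10

open scoped ContDiff ComplexConjugate Real ComplexOrder
open MeasureTheory

noncomputable section

namespace Pool.Agent.Helper112.Kohn

/-! TO PROVE -/

theorem box_series_app (V : VF) {k : ℕ → ℕ} {l : ℕ → ℤ} {c : ℕ → ℂ} (hl : ∀ j, |l j| ≤ k j)
    (hk : ∀ j, 1 ≤ k j) (hc : ∀ r : ℕ, Summable fun j => ‖c j‖ * (k j : ℝ) ^ r) (x : X) :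
    app V (SS k l c) x = ∑' j, c j * app V (EE (k j) (l j)) x := by
  have h1 : ∀ i : Fin 5, V x i * pd i (SS k l c) x =
      ∑' j, V x i * (c j * pd i (EE (k j) (l j)) x) := by
    intro i
    rw [(SS_pd hl hk hc i x).1, tsum_mul_left]
  unfold app
  rw [Finset.sum_congr rfl fun i _ => h1 i, ← Summable.tsum_finsetSum]
  · refine tsum_congr fun j => ?_
    rw [Finset.mul_sum]
    refine Finset.sum_congr rfl fun i _ => ?_
    ring
  · intro i _
    exact (SS_pd hl hk hc i x).2.mul_left _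

theorem box_series_zero (V : VF) (x : X) : app V (fun _ => (0 : ℂ)) x = 0 := by
  unfold app pd
  simp

theorem box_series_sum (β : ℝ) {k : ℕ → ℕ} {l : ℕ → ℤ} {c : ℕ → ℂ} (hl : ∀ j, |l j| ≤ k j)
    (hc : ∀ r : ℕ, Summable fun j => ‖c j‖ * (k j : ℝ) ^ r) (r : ℕ) :
    Summable fun j => ‖2 * π * Complex.I * ((l j + β * k j : ℝ) : ℂ) * c j‖ * (k j : ℝ) ^ r := by
  refine Summable.of_nonneg_of_le (fun j => by positivity) (fun j => ?_)
    ((hc (r + 1)).mul_left (2 * π * (1 + |β|)))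
  have h1 : |((l j : ℝ) + β * k j)| ≤ (1 + |β|) * k j := by
    have h2 : |(l j : ℝ)| ≤ (k j : ℝ) := by
      have := hl j
      have h3 : ((|l j| : ℤ) : ℝ) ≤ ((k j : ℤ) : ℝ) := by exact_mod_cast this
      simpa using h3
    calc |((l j : ℝ) + β * k j)| ≤ |(l j : ℝ)| + |β * k j| := abs_add_le _ _
      _ = |(l j : ℝ)| + |β| * k j := by rw [abs_mul, abs_of_nonneg (Nat.cast_nonneg (α := ℝ) (k j))]
      _ ≤ (1 + |β|) * k j := by linarith
  have h4 : ‖2 * π * Complex.I * ((l j + β * k j : ℝ) : ℂ) * c j‖ =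
      2 * π * |((l j : ℝ) + β * k j)| * ‖c j‖ := by
    rw [norm_mul, norm_mul, norm_mul, norm_mul, Complex.norm_I, Complex.norm_real,
      Complex.norm_real, Real.norm_eq_abs, Real.norm_eq_abs, abs_of_pos Real.pi_pos]
    norm_num
  rw [h4]
  have h5 : 0 ≤ 2 * π * ‖c j‖ * (k j : ℝ) ^ r := by positivity
  calc 2 * π * |((l j : ℝ) + β * k j)| * ‖c j‖ * (k j : ℝ) ^ r
      = |((l j : ℝ) + β * k j)| * (2 * π * ‖c j‖ * (k j : ℝ) ^ r) := by ring
    _ ≤ ((1 + |β|) * k j) * (2 * π * ‖c j‖ * (k j : ℝ) ^ r) := mul_le_mul_of_nonneg_right h1 h5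
    _ = 2 * π * (1 + |β|) * (‖c j‖ * (k j : ℝ) ^ (r + 1)) := by rw [pow_succ]; ring

theorem box_series (β : ℝ) {k : ℕ → ℕ} {l : ℕ → ℤ} {c : ℕ → ℂ}
    (hl : ∀ j, |l j| ≤ k j) (hk : ∀ j, 1 ≤ k j)
    (hc : ∀ r : ℕ, Summable fun j => ‖c j‖ * (k j : ℝ) ^ r) (x : X) :
    box (LL β) TT ![fun _ => 0, SS k l c] 0 x = 0 ∧
    box (LL β) TT ![fun _ => 0, SS k l c] 1 x =
      SS k l (fun j => ((4 * π ^ 2 * (l j + β * k j) ^ 2 : ℝ) : ℂ) * c j) x := by
  have hdiff : Differentiable ℝ (SS k l c) :=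
    (SS_contDiff hl hk hc).differentiable (by simp)
  have hdiff0 : Differentiable ℝ (fun _ : X => (0 : ℂ)) := differentiable_const _
  set c' : ℕ → ℂ := fun j => 2 * π * Complex.I * ((l j + β * k j : ℝ) : ℂ) * c j with hc'
  have hcs' : ∀ r : ℕ, Summable fun j => ‖c' j‖ * (k j : ℝ) ^ r := fun r =>
    box_series_sum β hl hc r
  have hdbar : dbar (LL β) ![fun _ => 0, SS k l c] = fun _ => 0 := by
    funext y
    simp only [dbar, Matrix.cons_val_zero, Matrix.cons_val_one]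
    rw [box_series_zero, sub_zero, box_series_app _ hl hk hc]
    simp only [EE_L1, mul_zero, tsum_zero]
  have hL2 : ∀ {d : ℕ → ℂ} (_ : ∀ r : ℕ, Summable fun j => ‖d j‖ * (k j : ℝ) ^ r) (y : X),
      app (LL β 1) (SS k l d) y =
        ∑' j, (2 * π * Complex.I * ((l j + β * k j : ℝ) : ℂ) * d j) * EE (k j) (l j) y := by
    intro d hd y
    rw [box_series_app _ hl hk hd]
    refine tsum_congr fun j => ?_
    rw [(EE_L2 β (k j) (l j) y).1]
    ring
  have hL2b : ∀ {d : ℕ → ℂ} (_ : ∀ r : ℕ, Summable fun j => ‖d j‖ * (k j : ℝ) ^ r) (y : X),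
      app (bar (LL β 1)) (SS k l d) y =
        ∑' j, (2 * π * Complex.I * ((l j + β * k j : ℝ) : ℂ) * d j) * EE (k j) (l j) y := by
    intro d hd y
    rw [box_series_app _ hl hk hd]
    refine tsum_congr fun j => ?_
    rw [(EE_L2 β (k j) (l j) y).2]
    ring
  have hdstar : dstar (LL β) TT ![fun _ => 0, SS k l c] = SS k l (fun j => - c' j) := by
    funext y
    simp only [dstar, Matrix.cons_val_zero, Matrix.cons_val_one]
    rw [adj_eq β 0 hdiff0, adj_eq β 1 hdiff, box_series_zero, neg_zero, zero_add, hL2 hc]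
    unfold SS
    rw [← tsum_neg]
    refine tsum_congr fun j => ?_
    simp only [hc']
    ring
  have hcsn : ∀ r : ℕ, Summable fun j => ‖- c' j‖ * (k j : ℝ) ^ r := by
    intro r
    simpa only [norm_neg] using hcs' r
  constructor
  · simp only [box, Matrix.cons_val_zero]
    rw [hdbar, hdstar, adj_eq β 1 hdiff0, box_series_zero, neg_zero, sub_zero,
      box_series_app _ hl hk hcsn]
    simp only [EE_L1, mul_zero, tsum_zero]
  · simp only [box, Matrix.cons_val_one, Matrix.cons_val_zero]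
    rw [hdbar, hdstar, adj_eq β 0 hdiff0, box_series_zero, neg_zero, add_zero, hL2b hcsn]
    unfold SS
    refine tsum_congr fun j => ?_
    simp only [hc']
    have hI : Complex.I * Complex.I = -1 := Complex.I_mul_I
    push_cast
    linear_combination (-(4 * (π : ℂ) ^ 2 * ((l j : ℂ) + β * k j) ^ 2 * c j * EE (k j) (l j) x)) * hI

end Pool.Agent.Helper112.Kohn
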