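import Pool.Agent.Helper112.Kohn.Ex

open scoped ContDiff ComplexConjugate Real ComplexOrder
open MeasureTheory

noncomputable section

namespace Pool.Agent.Helper112.Kohn

theorem isLevi_pd (g : ℝ → ℂ) (g' : ℂ) (x : X) (h : HasDerivAt g g' (x 0)) (i : Fin 5) :
    pd i (fun y => g (y 0)) x = if i = 0 then g' else 0 := by
  unfold pd
  have h1 : HasFDerivAt (fun y : X => y 0) (ContinuousLinearMap.proj (R := ℝ) (φ := fun _ : Fin 5 => ℝ) 0) x :=
    hasFDerivAt_apply 0 x
  have h2 : HasFDerivAt (fun y : X => g (y 0)) _ x := h.hasFDerivAt.comp x h1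
  rw [h2.fderiv]
  by_cases hi : i = 0
  · subst hi
    simp
  · have : (Pi.single i (1:ℝ) : X) 0 = 0 := by
      rw [Pi.single_apply, if_neg]
      intro h; exact hi h.symm
    simp [hi]

theorem isLevi_brk (V W : VF) (v w : Fin 5 → ℝ → ℂ) (v' w' : Fin 5 → ℂ) (x : X)
    (hV : ∀ y i, V y i = v i (y 0)) (hW : ∀ y i, W y i = w i (y 0))
    (hv : ∀ i, HasDerivAt (v i) (v' i) (x 0)) (hw : ∀ i, HasDerivAt (w i) (w' i) (x 0)) (i : Fin 5) :
    brk V W x i = V x 0 * w' i - W x 0 * v' i := by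
  unfold brk app
  simp only [hV, hW]
  have e1 : ∀ j : Fin 5, pd j (fun y : X => w i (y 0)) x = if j = 0 then w' i else 0 :=
    fun j => isLevi_pd _ _ x (hw i) j
  have e2 : ∀ j : Fin 5, pd j (fun y : X => v i (y 0)) x = if j = 0 then v' i else 0 :=
    fun j => isLevi_pd _ _ x (hv i) j
  simp only [e1, e2]
  simp

theorem isLevi_sin (s : ℝ) : HasDerivAt (fun s : ℝ => ((2 * π * Real.sin (2 * π * s) : ℝ) : ℂ))
    ((4 * π ^ 2 * Real.cos (2 * π * s) : ℝ) : ℂ) s := by
  have h1 : HasDerivAt (fun s : ℝ => 2 * π * Real.sin (2 * π * s)) (4 * π ^ 2 * Real.cos (2 * π * s)) s := by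
    have h2 : HasDerivAt (fun s : ℝ => 2 * π * s) (2 * π) s := by
      simpa using (hasDerivAt_id s).const_mul (2 * π)
    exact ((h2.sin).const_mul (2 * π)).congr_deriv (by ring)
  exact h1.ofReal_comp

theorem isLevi_cos (s : ℝ) : HasDerivAt (fun s : ℝ => ((2 * π * Real.cos (2 * π * s) : ℝ) : ℂ))
    ((-(4 * π ^ 2 * Real.sin (2 * π * s)) : ℝ) : ℂ) s := by
  have h1 : HasDerivAt (fun s : ℝ => 2 * π * Real.cos (2 * π * s)) (-(4 * π ^ 2 * Real.sin (2 * π * s))) s := by
    have h2 : HasDerivAt (fun s : ℝ => 2 * π * s) (2 * π) s := by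
      simpa using (hasDerivAt_id s).const_mul (2 * π)
    exact ((h2.cos).const_mul (2 * π)).congr_deriv (by ring)
  exact h1.ofReal_comp

/-- derivatives of the coefficients -/
def isLevi_d (s : ℝ) : Fin 2 → Fin 5 → ℂ :=
  ![![0, Complex.I * ((4 * π ^ 2 * Real.cos (2 * π * s) : ℝ) : ℂ),
    -(Complex.I * ((-(4 * π ^ 2 * Real.sin (2 * π * s)) : ℝ) : ℂ)), 0, 0], ![0, 0, 0, 0, 0]]

theorem isLevi_hd (β : ℝ) (s : ℝ) (j : Fin 2) (i : Fin 5) :
    HasDerivAt (fun s : ℝ => LL β j (fun _ => s) i) (isLevi_d s j i) s := by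
  fin_cases j
  · fin_cases i
    · exact hasDerivAt_const s _
    · exact (isLevi_sin s).const_mul Complex.I
    · exact ((isLevi_cos s).const_mul Complex.I).neg
    · exact hasDerivAt_const s _
    · exact hasDerivAt_const s _
  · fin_cases i <;> exact hasDerivAt_const s _

theorem isLevi_hdb (β : ℝ) (s : ℝ) (j : Fin 2) (i : Fin 5) :
    HasDerivAt (fun s : ℝ => bar (LL β j) (fun _ => s) i) (conj (isLevi_d s j i)) s := by
  have := (isLevi_hd β s j i).star
  exact this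

/-! TO PROVE -/

theorem isLevi (β : ℝ) : IsLevi (LL β) TT (fun _ => !![((8 * π ^ 2 : ℝ) : ℂ), 0; 0, 0]) := by
  intro x j k
  have hb : ∀ i, brk (LL β j) (bar (LL β k)) x i =
      LL β j x 0 * conj (isLevi_d (x 0) k i) - bar (LL β k) x 0 * isLevi_d (x 0) j i := by
    intro i
    apply isLevi_brk (LL β j) (bar (LL β k)) (fun i s => LL β j (fun _ => s) i)
      (fun i s => bar (LL β k) (fun _ => s) i)
    · intro y i
      fin_cases j <;> fin_cases i <;> rfl
    · intro y i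
      fin_cases k <;> fin_cases i <;> rfl
    · exact isLevi_hd β (x 0) j
    · exact isLevi_hdb β (x 0) k
  have hz : brk (LL β j) (bar (LL β k)) x -
      (Complex.I * (!![((8 * π ^ 2 : ℝ) : ℂ), 0; 0, 0] : Matrix (Fin 2) (Fin 2) ℂ) j k) • TT x = 0 := by
    funext i
    rw [Pi.sub_apply, hb]
    clear hb
    unfold LL bar isLevi_d TT
    generalize Real.cos (2 * π * x 0) = c
    generalize Real.sin (2 * π * x 0) = s
    have h4 : (starRingEnd ℂ) 4 = 4 := Complex.conj_ofNat 4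
    fin_cases j <;> fin_cases k <;> fin_cases i <;> simp [h4] <;> ring
  rw [hz]
  exact Submodule.zero_mem _

theorem lam_psd : (!![((8 * π ^ 2 : ℝ) : ℂ), 0; 0, 0]).PosSemidef := by
  have : (!![((8 * π ^ 2 : ℝ) : ℂ), 0; 0, 0] : Matrix (Fin 2) (Fin 2) ℂ) =
      Matrix.diagonal ![((8 * π ^ 2 : ℝ) : ℂ), 0] := by
    ext i j
    fin_cases i <;> fin_cases j <;> simp
  rw [this]
  apply Matrix.PosSemidef.diagonal
  intro i
  fin_cases i
  · have : (0:ℝ) ≤ 8 * π ^ 2 := by positivity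
    exact Complex.zero_le_real.2 this
  · simp

end Pool.Agent.Helper112.Kohn
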