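import Pool.Agent.Helper112.Kohn.Ex

open scoped ContDiff ComplexConjugate Real ComplexOrder
open MeasureTheory

noncomputable section

namespace Pool.Agent.Helper112.Kohn

/-! TO PROVE -/

theorem int_pd (i : Fin 5) {F : X → ℂ} (hF : ContDiff ℝ 1 F) (hp : Per F) :
    ∫ x in Set.Icc (0 : X) 1, pd i F x = 0 := by
  have hle : (0 : X) ≤ 1 := fun _ => zero_le_one
  have hcont : Continuous fun x : X => fderiv ℝ F x (Pi.single i 1) :=
    (hF.continuous_fderiv (by simp)).clm_apply continuous_const
  have hsum : ∀ x : X, ∑ j : Fin 5,
      ((if j = i then fderiv ℝ F x else 0 : X →L[ℝ] ℂ) (Pi.single j 1)) = pd i F x := by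
    intro x
    rw [Finset.sum_eq_single i]
    · rw [if_pos rfl]; rfl
    · intro j _ hj
      rw [if_neg hj]; rfl
    · intro h
      exact absurd (Finset.mem_univ i) h
  have key := integral_divergence_of_hasFDerivAt_off_countable' (n := 4) (E := ℂ) (0 : X) 1 hle
    (fun j => if j = i then F else fun _ => 0)
    (fun j x => if j = i then fderiv ℝ F x else 0) ∅ Set.countable_empty
    (by
      intro j
      by_cases hj : j = i
      · simp only [hj, if_true]
        exact hF.continuous.continuousOn
      · simp only [hj, if_false]
        exact continuousOn_const)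
    (by
      intro x _ j
      by_cases hj : j = i
      · simp only [hj, if_true]
        exact (hF.differentiable (by simp) x).hasFDerivAt
      · simp only [hj, if_false]
        exact hasFDerivAt_const _ _)
    (by
      simp only [hsum]
      exact (hcont.continuousOn.integrableOn_compact isCompact_Icc))
  simp only [hsum] at key
  rw [key]
  apply Finset.sum_eq_zero
  intro j _
  by_cases hj : j = i
  · subst hj
    simp only [if_true]
    rw [sub_eq_zero]
    apply setIntegral_congr_fun measurableSet_Icc
    intro y _
    have h := hp (j.insertNth (0 : ℝ) y) (Pi.single j 1)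
    show F (j.insertNth ((1 : X) j) y) = F (j.insertNth ((0 : X) j) y)
    have e : (fun l => (j.insertNth (0 : ℝ) y : X) l + ((Pi.single j 1 : Fin 5 → ℤ) l : ℝ)) =
        (j.insertNth (1 : ℝ) y : X) := by
      funext l
      refine Fin.succAboveCases j ?_ ?_ l
      · simp
      · intro l'
        simp [Fin.succAbove_ne]
    rw [e] at h
    exact h
  · simp [hj]

end Pool.Agent.Helper112.Kohn
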