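import Pool.Agent.Helper112.Kohn.Ex
import Pool.Agent.Helper112.Kohn.K4

open scoped ContDiff ComplexConjugate Real ComplexOrder
open MeasureTheory

noncomputable section

namespace Pool.Agent.Helper112.Kohn

/-! TO PROVE -/

theorem ibp_pd_mul (i : Fin 5) {f g : X → ℂ} (hf : Differentiable ℝ f) (hg : Differentiable ℝ g)
    (x : X) : pd i (fun y => f y * g y) x = pd i f x * g x + f x * pd i g x := by
  unfold pd
  rw [fderiv_fun_mul (hf x) (hg x)]
  simp only [ContinuousLinearMap.add_apply, ContinuousLinearMap.smul_apply, smul_eq_mul]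
  ring

theorem ibp_pd_zero (i : Fin 5) {f : X → ℂ} (hf : Differentiable ℝ f)
    (h : ∀ (x : X) (t : ℝ), f (x + t • (Pi.single i 1 : X)) = f x) (x : X) : pd i f x = 0 := by
  unfold pd
  rw [← (hf x).lineDeriv_eq_fderiv]
  unfold lineDeriv
  have : (fun t : ℝ => f (x + t • (Pi.single i 1 : X))) = fun _ => f x := by
    funext t; exact h x t
  rw [this, deriv_const]

theorem ibp_pd_cont (i : Fin 5) {f : X → ℂ} (hf : ContDiff ℝ 1 f) : Continuous (pd i f) := by
  unfold pd
  exact (hf.continuous_fderiv (by simp)).clm_apply continuous_const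

theorem ibp_gen (V : VF) (hV : ∀ i, ContDiff ℝ 1 (fun x => V x i))
    (hVp : ∀ i, Per (fun x => V x i))
    (hdiv : ∀ i (x : X) (t : ℝ), V (x + t • (Pi.single i 1 : X)) i = V x i)
    {F G : X → ℂ} (hF : ContDiff ℝ 1 F) (hFp : Per F)
    (hG : ContDiff ℝ 1 G) (hGp : Per G) :
    (∫ x in Set.Icc (0 : X) 1, app V F x * G x) =
      - ∫ x in Set.Icc (0 : X) 1, F x * app V G x := by
  have hVd : ∀ i, Differentiable ℝ (fun x => V x i) := fun i => (hV i).differentiable (by simp)
  have hFd := hF.differentiable (by simp)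
  have hGd := hG.differentiable (by simp)
  have hFG : Differentiable ℝ (fun y => F y * G y) := hFd.mul hGd
  have hsum : ∀ x, app V F x * G x + F x * app V G x
      = ∑ i, pd i (fun y => V y i * (F y * G y)) x := by
    intro x
    unfold app
    rw [Finset.sum_mul, Finset.mul_sum, ← Finset.sum_add_distrib]
    refine Finset.sum_congr rfl fun i _ => ?_
    rw [ibp_pd_mul i (hVd i) hFG x, ibp_pd_mul i hFd hGd x,
      ibp_pd_zero i (hVd i) (hdiv i) x]
    ring
  have hcV : ∀ i, Continuous (fun x => V x i) := fun i => (hV i).continuous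
  have hcapp : ∀ {f : X → ℂ}, ContDiff ℝ 1 f → Continuous (app V f) := by
    intro f hf
    unfold app
    exact continuous_finset_sum _ fun i _ => (hcV i).mul (ibp_pd_cont i hf)
  have hint : ∀ {f : X → ℂ}, Continuous f → IntegrableOn f (Set.Icc (0 : X) 1) := by
    intro f hf
    exact hf.continuousOn.integrableOn_compact isCompact_Icc
  have h0 : (∫ x in Set.Icc (0 : X) 1, (app V F x * G x + F x * app V G x)) = 0 := by
    simp_rw [hsum]
    rw [integral_finset_sum]
    · refine Finset.sum_eq_zero fun i _ => ?_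
      apply int_pd
      · exact (hV i).mul (hF.mul hG)
      · intro x k
        have e1 := hVp i x k
        have e2 := hFp x k
        have e3 := hGp x k
        simp only at e1
        simp only [e1, e2, e3]
    · intro i _
      exact hint (ibp_pd_cont i ((hV i).mul (hF.mul hG)))
  have i1 : IntegrableOn (fun x => app V F x * G x) (Set.Icc (0 : X) 1) :=
    hint ((hcapp hF).mul hG.continuous)
  have i2 : IntegrableOn (fun x => F x * app V G x) (Set.Icc (0 : X) 1) :=
    hint (hF.continuous.mul (hcapp hG))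
  rw [integral_add i1 i2] at h0
  exact eq_neg_of_add_eq_zero_left h0

theorem ibp_LL_smooth (β : ℝ) (j : Fin 2) (i : Fin 5) : ContDiff ℝ 1 (fun x => LL β j x i) := by
  have h1 : ContDiff ℝ 1 (fun x : X => ((2 * π * Real.sin (2 * π * x 0) : ℝ) : ℂ)) := by
    have h : ContDiff ℝ 1 (fun x : X => 2 * π * Real.sin (2 * π * x 0)) :=
      contDiff_const.mul (Real.contDiff_sin.comp (contDiff_const.mul (contDiff_apply ℝ ℝ 0)))
    exact Complex.ofRealCLM.contDiff.comp h
  have h2 : ContDiff ℝ 1 (fun x : X => ((2 * π * Real.cos (2 * π * x 0) : ℝ) : ℂ)) := by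
    have h : ContDiff ℝ 1 (fun x : X => 2 * π * Real.cos (2 * π * x 0)) :=
      contDiff_const.mul (Real.contDiff_cos.comp (contDiff_const.mul (contDiff_apply ℝ ℝ 0)))
    exact Complex.ofRealCLM.contDiff.comp h
  fin_cases j <;> fin_cases i <;> simp only [LL]
  all_goals first
    | exact contDiff_const
    | exact contDiff_const.mul h1
    | exact (contDiff_const.mul h2).neg

theorem ibp_LL_per (β : ℝ) (j : Fin 2) (i : Fin 5) : Per (fun x => LL β j x i) := by
  intro x k
  have e1 : Real.sin (2 * π * (x 0 + k 0)) = Real.sin (2 * π * x 0) := by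
    have := Real.sin_add_int_mul_two_pi (2 * π * x 0) (k 0)
    rw [← this]; congr 1; ring
  have e2 : Real.cos (2 * π * (x 0 + k 0)) = Real.cos (2 * π * x 0) := by
    have := Real.cos_add_int_mul_two_pi (2 * π * x 0) (k 0)
    rw [← this]; congr 1; ring
  fin_cases j
  · simp only [LL]
    show (![1, Complex.I * ((2 * π * Real.sin (2 * π * (x 0 + k 0)) : ℝ) : ℂ),
      -(Complex.I * ((2 * π * Real.cos (2 * π * (x 0 + k 0)) : ℝ) : ℂ)), 0, 0] : Fin 5 → ℂ) i =
      (![1, Complex.I * ((2 * π * Real.sin (2 * π * x 0) : ℝ) : ℂ),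
      -(Complex.I * ((2 * π * Real.cos (2 * π * x 0) : ℝ) : ℂ)), 0, 0] : Fin 5 → ℂ) i
    rw [e1, e2]
  · rfl

theorem ibp_LL_div (β : ℝ) (j : Fin 2) (i : Fin 5) (x : X) (t : ℝ) :
    LL β j (x + t • (Pi.single i 1 : X)) i = LL β j x i := by
  fin_cases j <;> fin_cases i <;> simp [LL, Pi.single_apply]

theorem ibp (β : ℝ) (j : Fin 2) {F G : X → ℂ} (hF : ContDiff ℝ ∞ F) (hFp : Per F)
    (hG : ContDiff ℝ ∞ G) (hGp : Per G) :
    (∫ x in Set.Icc (0 : X) 1, app (LL β j) F x * G x =
      - ∫ x in Set.Icc (0 : X) 1, F x * app (LL β j) G x) ∧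
    (∫ x in Set.Icc (0 : X) 1, app (bar (LL β j)) F x * G x =
      - ∫ x in Set.Icc (0 : X) 1, F x * app (bar (LL β j)) G x) := by
  have hF1 : ContDiff ℝ 1 F := hF.of_le (by exact_mod_cast le_top)
  have hG1 : ContDiff ℝ 1 G := hG.of_le (by exact_mod_cast le_top)
  constructor
  · exact ibp_gen _ (ibp_LL_smooth β j) (ibp_LL_per β j) (ibp_LL_div β j) hF1 hFp hG1 hGp
  · refine ibp_gen _ ?_ ?_ ?_ hF1 hFp hG1 hGp
    · intro i
      exact (Complex.conjCLE.contDiff (n := 1)).comp (ibp_LL_smooth β j i)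
    · intro i x k
      have := ibp_LL_per β j i x k
      simp only at this
      simp only [bar, this]
    · intro i x t
      simp only [bar, ibp_LL_div β j i x t]

end Pool.Agent.Helper112.Kohn
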