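import Pool.Agent.Helper112.Kohn.Ex
import Pool.Agent.Helper112.Kohn.K3
import Pool.Agent.Helper112.Kohn.K5
import Pool.Agent.Helper112.Kohn.K6

open scoped ContDiff ComplexConjugate Real ComplexOrder
open MeasureTheory

noncomputable section

namespace Pool.Agent.Helper112.Kohn

/-! TO PROVE -/

theorem pairing_pd (h : X → ℂ) (x : X) (hh : DifferentiableAt ℝ h x) (i : Fin 5) :
    pd i (fun y => conj (h y)) x = conj (pd i h x) := by
  unfold pd
  have h1 : HasFDerivAt (fun y => conj (h y))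
      ((Complex.conjCLE : ℂ →L[ℝ] ℂ).comp (fderiv ℝ h x)) x :=
    (Complex.conjCLE : ℂ →L[ℝ] ℂ).hasFDerivAt.comp x hh.hasFDerivAt
  rw [h1.fderiv]
  rfl

theorem pairing_bar (V : VF) (h : X → ℂ) (x : X) (hh : DifferentiableAt ℝ h x) :
    app (bar V) (fun y => conj (h y)) x = conj (app V h x) := by
  unfold app bar
  rw [map_sum]
  refine Finset.sum_congr rfl fun i _ => ?_
  rw [pairing_pd h x hh, map_mul]

theorem pairing_nobar (V : VF) (h : X → ℂ) (x : X) (hh : DifferentiableAt ℝ h x) :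
    app V (fun y => conj (h y)) x = conj (app (bar V) h x) := by
  unfold app bar
  rw [map_sum]
  refine Finset.sum_congr rfl fun i _ => ?_
  rw [pairing_pd h x hh, map_mul, Complex.conj_conj]

theorem pairing_int {f : X → ℂ} (hf : Continuous f) : IntegrableOn f (Set.Icc (0 : X) 1) :=
  hf.continuousOn.integrableOn_compact isCompact_Icc

/-- the pairing with `EE k l` diagonalises `□_b`. -/
theorem pairing (β : ℝ) (k : ℕ) (l : ℤ) {w : Form} (hw : SmoothForm w) :
    ∫ x in Set.Icc (0 : X) 1, box (LL β) TT w 1 x * conj (EE k l x) =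
      ((4 * π ^ 2 * (l + β * k) ^ 2 : ℝ) : ℂ) *
        ∫ x in Set.Icc (0 : X) 1, w 1 x * conj (EE k l x) := by
  obtain ⟨σ, hσ⟩ : ∃ σ : ℂ, σ = 2 * π * Complex.I * ((l + β * k : ℝ) : ℂ) := ⟨_, rfl⟩
  have hσc : conj σ = -σ := by
    rw [hσ]
    simp only [map_mul, Complex.conj_I, Complex.conj_ofReal, map_ofNat]
    ring
  have hEc := EE_contDiff k l
  have hEd : ∀ x, DifferentiableAt ℝ (EE k l) x := fun x =>
    (hEc.differentiable (by simp)) x
  obtain ⟨G, hG⟩ : ∃ G : X → ℂ, G = fun y => conj (EE k l y) := ⟨_, rfl⟩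
  have hGc : ContDiff ℝ ∞ G := by
    rw [hG]
    exact (Complex.conjCLE : ℂ →L[ℝ] ℂ).contDiff.comp hEc
  have hGp : Per G := by
    intro x m
    rw [hG]
    show conj (EE k l _) = conj (EE k l x)
    rw [EE_per k l x m]
  have hG0 : ∀ x, app (LL β 0) G x = 0 := by
    intro x
    rw [hG, pairing_nobar _ _ _ (hEd x), EE_L1, map_zero]
  have hG1 : ∀ x, app (LL β 1) G x = -σ * G x := by
    intro x
    rw [hG, pairing_nobar _ _ _ (hEd x), (EE_L2 β k l x).2, ← hσ, map_mul, hσc]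
  have hG1b : ∀ x, app (bar (LL β 1)) G x = -σ * G x := by
    intro x
    rw [hG, pairing_bar _ _ _ (hEd x), (EE_L2 β k l x).1, ← hσ, map_mul, hσc]
  have hw0 := (hw 0).2
  have hw1 := (hw 1).2
  have hw0d : Differentiable ℝ (w 0) := hw0.differentiable (by simp)
  have hw1d : Differentiable ℝ (w 1) := hw1.differentiable (by simp)
  obtain ⟨A, hA⟩ : ∃ A : X → ℂ, A = fun x => -(app (LL β 0) (w 0) x + app (LL β 1) (w 1) x) :=
    ⟨_, rfl⟩
  have hAeq : dstar (LL β) TT w = A := by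
    rw [hA]
    funext x
    unfold dstar
    rw [adj_eq β 0 hw0d, adj_eq β 1 hw1d]
    ring
  obtain ⟨Bf, hBf⟩ : ∃ Bf : X → ℂ, Bf = fun x =>
      app (bar (LL β 0)) (w 1) x - app (bar (LL β 1)) (w 0) x := ⟨_, rfl⟩
  have hBeq : dbar (LL β) w = Bf := by
    rw [hBf]
    rfl
  have a0 := app_contDiff β 0 hw0
  have a1 := app_contDiff β 1 hw1
  have a01 := app_contDiff β 0 hw1
  have a10 := app_contDiff β 1 hw0
  have p0 := app_per β 0 hw0 (hw 0).1
  have p1 := app_per β 1 hw1 (hw 1).1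
  have p01 := app_per β 0 hw1 (hw 1).1
  have p10 := app_per β 1 hw0 (hw 0).1
  have hAc : ContDiff ℝ ∞ A := by
    rw [hA]
    exact (a0.1.add a1.1).neg
  have hAp : Per A := by
    intro x m
    rw [hA]
    show -(app (LL β 0) (w 0) _ + app (LL β 1) (w 1) _) = -(app (LL β 0) (w 0) x + app (LL β 1) (w 1) x)
    rw [p0.1 x m, p1.1 x m]
  have hBc : ContDiff ℝ ∞ Bf := by
    rw [hBf]
    exact a01.2.sub a10.2
  have hBp : Per Bf := by
    intro x m
    rw [hBf]
    show app (bar (LL β 0)) (w 1) _ - app (bar (LL β 1)) (w 0) _ =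
      app (bar (LL β 0)) (w 1) x - app (bar (LL β 1)) (w 0) x
    rw [p01.2 x m, p10.2 x m]
  have hBd : Differentiable ℝ Bf := hBc.differentiable (by simp)
  have hbox : ∀ x, box (LL β) TT w 1 x = app (bar (LL β 1)) A x - app (LL β 0) Bf x := by
    intro x
    show app (bar (LL β 1)) (dstar (LL β) TT w) x +
      adj (vol (LL β) TT) (bar (LL β 0)) (dbar (LL β) w) x = _
    rw [hAeq, hBeq, adj_eq β 0 hBd]
    ring
  have hcG := hGc.continuous
  have c1 := (app_contDiff β 1 hAc).2.continuous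
  have c2 := (app_contDiff β 0 hBc).1.continuous
  have e1 : ∫ x in Set.Icc (0 : X) 1, box (LL β) TT w 1 x * conj (EE k l x) =
      (∫ x in Set.Icc (0 : X) 1, app (bar (LL β 1)) A x * G x) -
      ∫ x in Set.Icc (0 : X) 1, app (LL β 0) Bf x * G x := by
    have i1 : IntegrableOn (fun x => app (bar (LL β 1)) A x * G x) (Set.Icc (0 : X) 1) :=
      pairing_int (c1.mul hcG)
    have i2 : IntegrableOn (fun x => app (LL β 0) Bf x * G x) (Set.Icc (0 : X) 1) :=
      pairing_int (c2.mul hcG)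
    rw [← integral_sub i1 i2]
    congr 1
    funext x
    rw [hbox, hG]
    ring
  have e2 : ∫ x in Set.Icc (0 : X) 1, app (bar (LL β 1)) A x * G x =
      σ * ∫ x in Set.Icc (0 : X) 1, A x * G x := by
    rw [(ibp β 1 hAc hAp hGc hGp).2, ← integral_const_mul, ← integral_neg]
    congr 1
    funext x
    rw [hG1b]
    ring
  have e3 : ∫ x in Set.Icc (0 : X) 1, app (LL β 0) Bf x * G x = 0 := by
    rw [(ibp β 0 hBc hBp hGc hGp).1]
    have : (fun x => Bf x * app (LL β 0) G x) = fun _ => 0 := by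
      funext x
      rw [hG0, mul_zero]
    rw [this, integral_zero, neg_zero]
  have e4 : ∫ x in Set.Icc (0 : X) 1, A x * G x =
      (∫ x in Set.Icc (0 : X) 1, -(app (LL β 0) (w 0) x * G x)) +
      ∫ x in Set.Icc (0 : X) 1, -(app (LL β 1) (w 1) x * G x) := by
    have i1 : IntegrableOn (fun x => -(app (LL β 0) (w 0) x * G x)) (Set.Icc (0 : X) 1) :=
      pairing_int (a0.1.continuous.mul hcG).neg
    have i2 : IntegrableOn (fun x => -(app (LL β 1) (w 1) x * G x)) (Set.Icc (0 : X) 1) :=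
      pairing_int (a1.1.continuous.mul hcG).neg
    rw [← integral_add i1 i2]
    congr 1
    funext x
    rw [hA]
    ring
  have e5 : ∫ x in Set.Icc (0 : X) 1, -(app (LL β 0) (w 0) x * G x) = 0 := by
    rw [integral_neg, (ibp β 0 hw0 (hw 0).1 hGc hGp).1]
    have : (fun x => w 0 x * app (LL β 0) G x) = fun _ => 0 := by
      funext x
      rw [hG0, mul_zero]
    rw [this, integral_zero, neg_zero, neg_zero]
  have e6 : ∫ x in Set.Icc (0 : X) 1, -(app (LL β 1) (w 1) x * G x) =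
      -σ * ∫ x in Set.Icc (0 : X) 1, w 1 x * G x := by
    rw [integral_neg, (ibp β 1 hw1 (hw 1).1 hGc hGp).1, neg_neg, ← integral_const_mul]
    congr 1
    funext x
    rw [hG1]
    ring
  have hs : σ * (-σ) = ((4 * π ^ 2 * (l + β * k) ^ 2 : ℝ) : ℂ) := by
    rw [hσ]
    push_cast
    have hI : Complex.I * Complex.I = -1 := Complex.I_mul_I
    linear_combination (-(4 * (π : ℂ) ^ 2 * ((l : ℂ) + β * k) ^ 2)) * hI
  rw [e1, e2, e3, sub_zero, e4, e5, zero_add, e6, ← hs, ← mul_assoc]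
  rw [hG]

end Pool.Agent.Helper112.Kohn
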