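import Pool.Agent.Helper112.Kohn.Ex

open scoped ContDiff ComplexConjugate Real ComplexOrder
open MeasureTheory

noncomputable section

namespace Pool.Agent.Helper112.Kohn

/-! TO PROVE -/

theorem EE_mass : ∃ c : ℝ, 0 < c ∧ ∀ (k : ℕ) (l : ℤ), 1 ≤ k →
    c / k ≤ ∫ x in Set.Icc (0 : X) 1, ‖EE k l x‖ ^ 2 := by
  refine ⟨Real.exp (-(8 * π ^ 3)), Real.exp_pos _, ?_⟩
  intro k l hk
  have hk' : (1 : ℝ) ≤ k := by exact_mod_cast hk
  have hk0 : (0 : ℝ) < k := by linarith
  have hnorm : ∀ x : X, ‖EE k l x‖ ^ 2 =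
      Real.exp (4 * π * k * (Real.cos (2 * π * x 0) - 1)) := by
    intro x
    unfold EE
    rw [Complex.norm_exp, ← Real.exp_nat_mul]
    congr 1
    have hre : (2 * (π : ℂ) * (((k : ℝ) * (Real.cos (2 * π * x 0) - 1) : ℝ) +
        Complex.I * ((k * x 1 + l * x 3 : ℝ) : ℂ))).re =
        2 * π * (k * (Real.cos (2 * π * x 0) - 1)) := by
      rw [show (2 * (π : ℂ)) = ((2 * π : ℝ) : ℂ) by push_cast; ring, Complex.re_ofReal_mul,
        Complex.add_re, Complex.ofReal_re, Complex.re_mul_ofReal]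
      simp
    rw [hre]
    push_cast
    ring
  have hcont : Continuous (fun x : X => ‖EE k l x‖ ^ 2) := by
    have : (fun x : X => ‖EE k l x‖ ^ 2) =
        fun x : X => Real.exp (4 * π * k * (Real.cos (2 * π * x 0) - 1)) := funext hnorm
    rw [this]
    fun_prop
  set b : X := fun i => if i = 0 then 1 / (k : ℝ) else 1 with hb
  have hb0 : (0 : X) ≤ b := by
    intro i
    simp only [hb]
    split_ifs
    · positivity
    · simp
  have hb1 : b ≤ 1 := by
    intro i
    simp only [hb]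
    split_ifs
    · simp only [Pi.one_apply]
      rw [div_le_one hk0]; exact hk'
    · simp
  have hsub : Set.Icc (0 : X) b ⊆ Set.Icc (0 : X) 1 := Set.Icc_subset_Icc le_rfl hb1
  have hint : IntegrableOn (fun x : X => ‖EE k l x‖ ^ 2) (Set.Icc (0 : X) 1) :=
    hcont.continuousOn.integrableOn_compact isCompact_Icc
  have h1 : ∫ x in Set.Icc (0 : X) b, ‖EE k l x‖ ^ 2 ≤
      ∫ x in Set.Icc (0 : X) 1, ‖EE k l x‖ ^ 2 := by
    apply setIntegral_mono_set hint
    · exact Filter.Eventually.of_forall (fun x => by positivity)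
    · exact hsub.eventuallyLE
  have h2 : Real.exp (-(8 * π ^ 3)) * (volume (Set.Icc (0 : X) b)).toReal ≤
      ∫ x in Set.Icc (0 : X) b, ‖EE k l x‖ ^ 2 := by
    apply setIntegral_ge_of_const_le_real measurableSet_Icc
    · exact (isCompact_Icc.measure_lt_top).ne
    · intro x hx
      rw [hnorm]
      apply Real.exp_le_exp.mpr
      have hx0 : 0 ≤ x 0 := hx.1 0
      have hx1 : x 0 ≤ 1 / k := by
        have := hx.2 0
        simpa [hb] using this
      have hcos : 1 - (2 * π * x 0) ^ 2 / 2 ≤ Real.cos (2 * π * x 0) :=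
        Real.one_sub_sq_div_two_le_cos
      have hpi := Real.pi_pos
      have hkx : k * x 0 ≤ 1 := by
        have := mul_le_mul_of_nonneg_left hx1 hk0.le
        rwa [mul_one_div_cancel hk0.ne'] at this
      have hx01 : x 0 ≤ 1 := hx1.trans (by rw [div_le_one hk0]; exact hk')
      have hkxx : k * (x 0) ^ 2 ≤ 1 := by nlinarith
      have h3 : -(8 * π ^ 3) * (k * (x 0) ^ 2) ≤
          4 * π * k * (Real.cos (2 * π * x 0) - 1) := by
        have h4 : -((2 * π * x 0) ^ 2 / 2) ≤ Real.cos (2 * π * x 0) - 1 := by linarith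
        have h5 := mul_le_mul_of_nonneg_left h4 (by positivity : (0 : ℝ) ≤ 4 * π * k)
        have h6 : 4 * π * k * (-((2 * π * x 0) ^ 2 / 2)) = -(8 * π ^ 3) * (k * (x 0) ^ 2) := by
          ring
        linarith
      have h7 : (0 : ℝ) < 8 * π ^ 3 := by positivity
      nlinarith
    · exact hint.mono_set hsub
  have h3 : (volume (Set.Icc (0 : X) b)).toReal = 1 / k := by
    rw [Real.volume_Icc_pi_toReal hb0]
    simp [hb]
  rw [h3] at h2
  calc Real.exp (-(8 * π ^ 3)) / k = Real.exp (-(8 * π ^ 3)) * (1 / k) := by ring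
    _ ≤ _ := h2.trans h1

end Pool.Agent.Helper112.Kohn
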