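import Pool.Agent.Helper112.Kohn.Ex

open scoped ContDiff ComplexConjugate Real ComplexOrder
open MeasureTheory

noncomputable section

namespace Pool.Agent.Helper112.Kohn

/-! TO PROVE -/

theorem co_bound {E F : Type} [NormedAddCommGroup E] [NormedSpace ℝ E] [NormedAddCommGroup F]
    [NormedSpace ℝ F] [CompleteSpace F] (p : FormalMultilinearSeries ℝ E F) (r : NNReal)
    (hr : ((r : ENNReal) + (r : ENNReal)) < p.radius) :
    ∃ T : NNReal, ∀ y : E, ‖y‖₊ ≤ r → ∀ k : ℕ, ‖p.changeOrigin y k‖₊ * r ^ k ≤ T := by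
  have S := p.changeOriginSeries_summable_aux₁ hr
  refine ⟨∑' s : Σ k l : ℕ, { s : Finset (Fin (k + l)) // s.card = l },
    ‖p (s.1 + s.2.1)‖₊ * r ^ s.2.1 * r ^ s.1, ?_⟩
  intro y hy k
  have hr1 : (r : ENNReal) < p.radius := lt_of_le_of_lt (le_self_add) hr
  have hy1 : (‖y‖₊ : ENNReal) < p.radius := lt_of_le_of_lt (by exact_mod_cast hy) hr1
  have h1 := p.nnnorm_changeOrigin_le k hy1
  have S2 := p.changeOriginSeries_summable_aux₂ hr1 k
  have h2 : (∑' s : Σ l : ℕ, { s : Finset (Fin (k + l)) // s.card = l },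
      ‖p (k + s.1)‖₊ * ‖y‖₊ ^ s.1) ≤ ∑' s : Σ l : ℕ, { s : Finset (Fin (k + l)) // s.card = l },
      ‖p (k + s.1)‖₊ * r ^ s.1 :=
    Summable.tsum_le_tsum (fun s => by gcongr) (p.changeOriginSeries_summable_aux₂ hy1 k) S2
  have h3 : (∑' s : Σ l : ℕ, { s : Finset (Fin (k + l)) // s.card = l },
      ‖p (k + s.1)‖₊ * r ^ s.1) * r ^ k = ∑' s : Σ l : ℕ, { s : Finset (Fin (k + l)) // s.card = l },
      ‖p (k + s.1)‖₊ * r ^ s.1 * r ^ k := by
    rw [NNReal.tsum_mul_right]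
  have h4 := NNReal.summable_sigma.1 S
  have h5 : (∑' s : Σ k l : ℕ, { s : Finset (Fin (k + l)) // s.card = l },
    ‖p (s.1 + s.2.1)‖₊ * r ^ s.2.1 * r ^ s.1) =
      ∑' k : ℕ, ∑' s : Σ l : ℕ, { s : Finset (Fin (k + l)) // s.card = l },
        ‖p (k + s.1)‖₊ * r ^ s.1 * r ^ k :=
    Summable.tsum_sigma' h4.1 S
  rw [h5]
  calc ‖p.changeOrigin y k‖₊ * r ^ k ≤ (∑' s : Σ l : ℕ, { s : Finset (Fin (k + l)) // s.card = l },
      ‖p (k + s.1)‖₊ * r ^ s.1) * r ^ k := by gcongr; exact h1.trans h2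
    _ = _ := h3
    _ ≤ _ := h4.2.le_tsum k (fun _ _ => zero_le)

theorem pd_iter {v : X → ℂ} (hv : ContDiff ℝ ω v) (i : Fin 5) (n : ℕ) :
    (pd i)^[n] v = fun x => iteratedFDeriv ℝ n v x (fun _ => Pi.single i 1) := by
  induction n with
  | zero => funext x; simp
  | succ n ih =>
    rw [Function.iterate_succ_apply', ih]
    funext x
    rw [iteratedFDeriv_succ_apply_left]
    unfold pd
    have hd : DifferentiableAt ℝ (iteratedFDeriv ℝ n v) x :=
      (hv.differentiable_iteratedFDeriv (m := n) (by exact WithTop.coe_lt_top _)) x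
    rw [fderiv_continuousMultilinear_apply_const_apply hd]
    rfl

theorem pd_bound {v : X → ℂ} (hv : ContDiff ℝ ω v) : ∃ C A : ℝ, 0 < A ∧ 0 ≤ C ∧
    ∀ (n : ℕ) (x : X), x ∈ Set.Icc (0 : X) 1 → ‖((pd 1)^[n] v) x‖ ≤ C * A ^ n * n.factorial := by
  have hK : IsCompact (Set.Icc (0 : X) 1) := isCompact_Icc
  refine hK.induction_on (p := fun s => ∃ C A : ℝ, 0 < A ∧ 0 ≤ C ∧
    ∀ (n : ℕ) (x : X), x ∈ s → ‖((pd 1)^[n] v) x‖ ≤ C * A ^ n * n.factorial) ?_ ?_ ?_ ?_
  · exact ⟨0, 1, one_pos, le_rfl, fun n x hx => absurd hx (Set.notMem_empty x)⟩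
  · rintro s t hst ⟨C, A, hA, hC, h⟩
    exact ⟨C, A, hA, hC, fun n x hx => h n x (hst hx)⟩
  · rintro s t ⟨C, A, hA, hC, h⟩ ⟨C', A', hA', hC', h'⟩
    refine ⟨max C C', max A A', lt_max_of_lt_left hA, le_max_of_le_left hC, ?_⟩
    rintro n x (hx | hx)
    · refine (h n x hx).trans ?_
      gcongr
      · exact le_max_left _ _
      · exact le_max_left _ _
    · refine (h' n x hx).trans ?_
      gcongr
      · exact le_max_right _ _
      · exact le_max_right _ _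
  · intro x0 _
    have ha : AnalyticAt ℝ v x0 := (hv.contDiffAt (x := x0)).analyticAt
    obtain ⟨p, r, hp⟩ := ha
    obtain ⟨q, hq0, hq⟩ : ∃ q : NNReal, 0 < q ∧ ((q : ENNReal) + q) < r := by
      obtain ⟨q, hq0, hq⟩ := ENNReal.lt_iff_exists_nnreal_btwn.1 hp.r_pos
      refine ⟨q / 2, by
        have : (0 : NNReal) < q := by exact_mod_cast hq0
        exact half_pos this, ?_⟩
      have : ((q / 2 : NNReal) : ENNReal) + ((q / 2 : NNReal) : ENNReal) = q := by
        rw [← ENNReal.coe_add, add_halves]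
      rw [this]
      exact hq
    obtain ⟨T, hT⟩ := co_bound p q (lt_of_lt_of_le hq hp.r_le)
    refine ⟨Metric.ball x0 q, mem_nhdsWithin_of_mem_nhds (Metric.ball_mem_nhds _
      (by exact_mod_cast hq0)), T, (q : ℝ)⁻¹, by positivity, by positivity, ?_⟩
    intro n x hx
    have hxq : ‖x - x0‖₊ ≤ q := by
      rw [Metric.mem_ball, dist_eq_norm] at hx
      exact_mod_cast hx.le
    have hxr : (‖x - x0‖₊ : ENNReal) < r :=
      lt_of_le_of_lt (by exact_mod_cast hxq) (lt_of_le_of_lt le_self_add hq)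
    have hpx := hp.changeOrigin hxr
    rw [add_sub_cancel] at hpx
    rw [pd_iter hv 1 n]
    have hf := hpx.factorial_smul (Pi.single 1 1) n
    simp only
    rw [← hf]
    have hb := hT _ hxq n
    have hb' : ‖p.changeOrigin (x - x0) n‖ * (q : ℝ) ^ n ≤ T := by exact_mod_cast hb
    have hq' : (0 : ℝ) < (q : ℝ) ^ n := by positivity
    have hb2 : ‖p.changeOrigin (x - x0) n‖ ≤ T * ((q : ℝ)⁻¹) ^ n := by
      rw [inv_pow, ← div_eq_mul_inv, le_div_iff₀ hq']
      exact hb'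
    have h1 : ‖(p.changeOrigin (x - x0) n) (fun _ => (Pi.single 1 1 : X))‖ ≤
        ‖p.changeOrigin (x - x0) n‖ * 1 := by
      refine (ContinuousMultilinearMap.le_opNorm _ _).trans ?_
      gcongr
      simp [Pi.norm_single]
    rw [← Nat.cast_smul_eq_nsmul ℝ, norm_smul, Real.norm_natCast, mul_comm]
    gcongr
    exact h1.trans (by rw [mul_one]; exact hb2)

end Pool.Agent.Helper112.Kohn
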