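import Pool.Agent.Helper112.Kohn.Ex
import Pool.Agent.Helper112.Kohn.K4
import Pool.Agent.Helper112.Kohn.K9a

open scoped ContDiff ComplexConjugate Real ComplexOrder
open MeasureTheory

noncomputable section

namespace Pool.Agent.Helper112.Kohn

/-! TO PROVE -/

theorem ad_EE_contDiff (k : ℕ) (l : ℤ) : ContDiff ℝ ω (EE k l) := by
  unfold EE
  apply ContDiff.cexp
  apply ContDiff.mul contDiff_const
  have hp : ∀ i : Fin 5, ContDiff ℝ ω (fun x : X => x i) := fun i => contDiff_apply ℝ ℝ i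
  apply ContDiff.add
  · apply Complex.ofRealCLM.contDiff.comp
    apply ContDiff.mul contDiff_const
    apply ContDiff.sub _ contDiff_const
    exact Real.contDiff_cos.comp (contDiff_const.mul (hp 0))
  · apply ContDiff.mul contDiff_const
    apply Complex.ofRealCLM.contDiff.comp
    exact (contDiff_const.mul (hp 1)).add (contDiff_const.mul (hp 3))

theorem ad_EE_per (k : ℕ) (l : ℤ) : Per (EE k l) := by
  intro x m
  unfold EE
  have h1 : Real.cos (2 * π * (x 0 + m 0)) = Real.cos (2 * π * x 0) := by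
    have : 2 * π * (x 0 + m 0) = 2 * π * x 0 + m 0 * (2 * π) := by ring
    rw [this, Real.cos_add_int_mul_two_pi]
  have h2 : (2 * (π:ℂ) * (((k : ℝ) * (Real.cos (2 * π * (x 0 + m 0)) - 1) : ℝ) +
      Complex.I * ((k * (x 1 + m 1) + l * (x 3 + m 3) : ℝ) : ℂ))) =
      2 * π * (((k : ℝ) * (Real.cos (2 * π * x 0) - 1) : ℝ) +
        Complex.I * ((k * x 1 + l * x 3 : ℝ) : ℂ)) + ((k * m 1 + l * m 3 : ℤ) : ℂ) * (2 * π * Complex.I) := by
    rw [h1]
    push_cast
    ring
  rw [h2, Complex.exp_add, Complex.exp_int_mul_two_pi_mul_I, mul_one]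

theorem ad_EE_norm (k : ℕ) (l : ℤ) (x : X) : ‖EE k l x‖ ≤ 1 := by
  unfold EE
  rw [Complex.norm_exp]
  have h1 : (2 * (π:ℂ) * (((k : ℝ) * (Real.cos (2 * π * x 0) - 1) : ℝ) +
        Complex.I * ((k * x 1 + l * x 3 : ℝ) : ℂ))).re = 2 * π * (k * (Real.cos (2 * π * x 0) - 1)) := by
    have h2 : (2 * (π:ℂ)) = ((2 * π : ℝ) : ℂ) := by push_cast; ring
    rw [h2, Complex.re_ofReal_mul, Complex.add_re, Complex.ofReal_re, Complex.I_mul_re,
      Complex.ofReal_im]
    ring
  rw [h1]
  apply Real.exp_le_one_iff.2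
  have h3 := Real.cos_le_one (2 * π * x 0)
  have h4 : (k:ℝ) * (Real.cos (2 * π * x 0) - 1) ≤ 0 :=
    mul_nonpos_of_nonneg_of_nonpos (by positivity) (by linarith)
  exact mul_nonpos_of_nonneg_of_nonpos (by positivity) h4

theorem ad_EE_line (k : ℕ) (l : ℤ) (x : X) (t : ℝ) :
    EE k l (x + t • Pi.single 1 1) = EE k l x * Complex.exp (2 * π * Complex.I * k * t) := by
  unfold EE
  rw [← Complex.exp_add]
  congr 1
  have h0 : (x + t • (Pi.single 1 1 : X)) 0 = x 0 := by simp
  have h1 : (x + t • (Pi.single 1 1 : X)) 1 = x 1 + t := by simp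
  have h3 : (x + t • (Pi.single 1 1 : X)) 3 = x 3 := by simp
  rw [h0, h1, h3]
  push_cast
  ring

/-- the conjugate of `EE` -/
def adW (k : ℕ) (l : ℤ) (x : X) : ℂ := conj (EE k l x)

theorem adW_contDiff (k : ℕ) (l : ℤ) : ContDiff ℝ ω (adW k l) :=
  Complex.conjCLE.contDiff.comp (ad_EE_contDiff k l)

theorem adW_per (k : ℕ) (l : ℤ) : Per (adW k l) := by
  intro x m
  unfold adW
  rw [ad_EE_per k l x m]

theorem adW_norm (k : ℕ) (l : ℤ) (x : X) : ‖adW k l x‖ ≤ 1 := by
  unfold adW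
  rw [RCLike.norm_conj]
  exact ad_EE_norm k l x

theorem adW_pd (k : ℕ) (l : ℤ) (x : X) : pd 1 (adW k l) x = -(2 * π * Complex.I * k) * adW k l x := by
  have hd : HasFDerivAt (adW k l) (fderiv ℝ (adW k l) x) x :=
    ((adW_contDiff k l).differentiable (by simp) x).hasFDerivAt
  have hg : HasDerivAt (fun t : ℝ => x + t • (Pi.single 1 1 : X)) (Pi.single 1 1) 0 := by
    have := ((hasDerivAt_id (0:ℝ)).smul_const (Pi.single 1 1 : X)).const_add x
    rw [one_smul] at this
    exact this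
  have hx : x + (0:ℝ) • (Pi.single 1 1 : X) = x := by simp
  have h1 : HasDerivAt (fun t : ℝ => adW k l (x + t • (Pi.single 1 1 : X)))
      (fderiv ℝ (adW k l) x (Pi.single 1 1)) 0 := by
    have hd' : HasFDerivAt (adW k l) (fderiv ℝ (adW k l) x) (x + (0:ℝ) • (Pi.single 1 1 : X)) := by
      rw [hx]; exact hd
    exact hd'.comp_hasDerivAt 0 hg
  have h2 : (fun t : ℝ => adW k l (x + t • (Pi.single 1 1 : X))) =
      fun t : ℝ => adW k l x * Complex.exp (-(2 * π * Complex.I * k) * t) := by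
    funext t
    unfold adW
    rw [ad_EE_line, map_mul, ← Complex.exp_conj]
    congr 2
    simp only [map_mul, Complex.conj_ofReal, Complex.conj_I, map_ofNat, map_natCast]
    ring
  have h3 : HasDerivAt (fun t : ℝ => adW k l x * Complex.exp (-(2 * π * Complex.I * k) * t))
      (adW k l x * (Complex.exp (-(2 * π * Complex.I * k) * (0:ℝ)) * (-(2 * π * Complex.I * k)))) 0 := by
    have e1 : HasDerivAt (fun t : ℝ => -(2 * π * Complex.I * k) * (t:ℂ)) (-(2 * π * Complex.I * k)) 0 := by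
      have := (Complex.ofRealCLM.hasDerivAt (x := (0:ℝ))).const_mul (-(2 * π * Complex.I * k))
      simpa using this
    exact (e1.cexp).const_mul _
  rw [h2] at h1
  have h4 := h1.unique h3
  unfold pd
  rw [h4]
  simp
  ring

theorem ad_pd_contDiff {v : X → ℂ} (hv : ContDiff ℝ ω v) : ContDiff ℝ ω (pd 1 v) := by
  unfold pd
  exact (hv.fderiv_right (by simp)).clm_apply contDiff_const

theorem ad_pd_per {v : X → ℂ} (hp : Per v) : Per (pd 1 v) := by
  intro x m
  unfold pd
  have h1 : (fun y : X => v (y + fun i => (m i : ℝ))) = v := by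
    funext y
    exact hp y m
  have h2 := fderiv_comp_add_right (𝕜 := ℝ) (f := v) (x := x) (fun i => (m i : ℝ))
  rw [h1] at h2
  rw [h2]
  rfl

theorem ad_it {v : X → ℂ} (hv : ContDiff ℝ ω v) (hp : Per v) (n : ℕ) :
    ContDiff ℝ ω ((pd 1)^[n] v) ∧ Per ((pd 1)^[n] v) := by
  induction n with
  | zero => exact ⟨hv, hp⟩
  | succ n ih =>
    rw [Function.iterate_succ_apply']
    exact ⟨ad_pd_contDiff ih.1, ad_pd_per ih.2⟩

theorem ad_int {f g : X → ℂ} (hf : ContDiff ℝ ω f) (hg : ContDiff ℝ ω g) :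
    IntegrableOn (fun x => f x * g x) (Set.Icc (0 : X) 1) :=
  (hf.continuous.mul hg.continuous).continuousOn.integrableOn_compact isCompact_Icc

theorem ad_ibp {v : X → ℂ} (hv : ContDiff ℝ ω v) (hp : Per v) (k : ℕ) (l : ℤ) :
    ∫ x in Set.Icc (0 : X) 1, pd 1 v x * adW k l x =
      (2 * π * Complex.I * k) * ∫ x in Set.Icc (0 : X) 1, v x * adW k l x := by
  have hW := adW_contDiff k l
  have h1 := int_pd 1 (F := fun x => v x * adW k l x)
    ((hv.mul hW).of_le (by exact le_top)) (by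
      intro x m
      show v (fun i => x i + m i) * adW k l (fun i => x i + m i) = v x * adW k l x
      rw [hp x m, adW_per k l x m])
  have h2 : ∀ x, pd 1 (fun x => v x * adW k l x) x =
      -(2 * π * Complex.I * k) * (v x * adW k l x) + pd 1 v x * adW k l x := by
    intro x
    have hv1 := hv.differentiable (by simp) x
    have hW1 := hW.differentiable (by simp) x
    have h3 := fderiv_fun_mul hv1 hW1
    have h4 : pd 1 (fun x => v x * adW k l x) x = v x * pd 1 (adW k l) x + adW k l x * pd 1 v x := by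
      unfold pd
      rw [h3]
      simp
    rw [h4, adW_pd]
    ring
  simp only [h2] at h1
  rw [integral_add ((ad_int hv hW).const_mul _) (ad_int (ad_pd_contDiff hv) hW),
    integral_const_mul] at h1
  linear_combination h1

theorem ad_pow {v : X → ℂ} (hv : ContDiff ℝ ω v) (hp : Per v) (k : ℕ) (l : ℤ) (n : ℕ) :
    ∫ x in Set.Icc (0 : X) 1, ((pd 1)^[n] v) x * adW k l x =
      (2 * π * Complex.I * k) ^ n * ∫ x in Set.Icc (0 : X) 1, v x * adW k l x := by
  induction n with
  | zero => simp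
  | succ n ih =>
    have h := ad_it hv hp n
    rw [Function.iterate_succ_apply', ad_ibp h.1 h.2, ih, pow_succ]
    ring

theorem ad_vol : (volume : Measure X).real (Set.Icc (0 : X) 1) = 1 := by
  rw [measureReal_def, Real.volume_Icc_pi]
  simp

/-- pairings of real analytic functions with `EE k l` decay exponentially. -/
theorem analytic_decay {v : X → ℂ} (hv : ContDiff ℝ ω v) (hp : Per v) :
    ∃ C δ : ℝ, 0 < δ ∧ ∀ (k : ℕ) (l : ℤ),
      ‖∫ x in Set.Icc (0 : X) 1, v x * conj (EE k l x)‖ ≤ C * Real.exp (-δ * k) := by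
  obtain ⟨C, A, hA, hC, hb⟩ := pd_bound hv
  refine ⟨C * Real.exp 1, 2 * π / (Real.exp 1 * A), by positivity, fun k l => ?_⟩
  obtain ⟨I, hI⟩ : ∃ I : ℂ, I = ∫ x in Set.Icc (0 : X) 1, v x * conj (EE k l x) := ⟨_, rfl⟩
  rw [← hI]
  have hkey : ∀ n : ℕ, (2 * π * k) ^ n * ‖I‖ ≤ C * A ^ n * n.factorial := by
    intro n
    have h1 := ad_pow hv hp k l n
    have h2 : ‖∫ x in Set.Icc (0 : X) 1, ((pd 1)^[n] v) x * adW k l x‖ ≤
        (C * A ^ n * n.factorial) * (volume : Measure X).real (Set.Icc (0 : X) 1) := by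
      apply norm_setIntegral_le_of_norm_le_const
      · exact isCompact_Icc.measure_lt_top
      · intro x hx
        rw [norm_mul]
        have h3 := hb n x hx
        have h4 := adW_norm k l x
        calc ‖((pd 1)^[n] v) x‖ * ‖adW k l x‖ ≤ (C * A ^ n * n.factorial) * 1 :=
              mul_le_mul h3 h4 (norm_nonneg _) (by positivity)
          _ = _ := mul_one _
    rw [ad_vol, mul_one, h1, norm_mul, norm_pow] at h2
    have h5 : ‖(2 * π * Complex.I * k : ℂ)‖ = 2 * π * k := by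
      rw [norm_mul, norm_mul, norm_mul]
      simp [abs_of_pos Real.pi_pos]
    rw [h5] at h2
    rw [hI]
    exact h2
  obtain ⟨y, hy⟩ : ∃ y : ℝ, y = 2 * π * k / A := ⟨_, rfl⟩
  have hy0 : 0 ≤ y := by rw [hy]; positivity
  obtain ⟨n, hn⟩ : ∃ n : ℕ, n = ⌊y / Real.exp 1⌋₊ := ⟨_, rfl⟩
  have he : 0 < Real.exp 1 := Real.exp_pos 1
  have hn1 : (n:ℝ) ≤ y / Real.exp 1 := by rw [hn]; exact Nat.floor_le (by positivity)
  have hn2 : y / Real.exp 1 < n + 1 := by rw [hn]; exact Nat.lt_floor_add_one _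
  have hyn : 0 < y ^ n := by
    rcases Nat.eq_zero_or_pos n with h | h
    · rw [h, pow_zero]; exact one_pos
    · have h1 : (0:ℝ) < n := by exact_mod_cast h
      have h2 : 0 < y / Real.exp 1 := lt_of_lt_of_le h1 hn1
      have h3 : 0 < y := by
        by_contra hcon
        push Not at hcon
        have := div_nonpos_of_nonpos_of_nonneg hcon he.le
        linarith
      positivity
  have h1 : y ^ n * ‖I‖ ≤ C * n.factorial := by
    have h2 := hkey n
    have h3 : (2 * π * k) ^ n = y ^ n * A ^ n := by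
      rw [hy, div_pow]; field_simp
    rw [h3] at h2
    have h4 : 0 < A ^ n := by positivity
    have h5 : A ^ n * (y ^ n * ‖I‖) ≤ A ^ n * (C * n.factorial) := by linarith
    exact le_of_mul_le_mul_left h5 h4
  have h2 : (n.factorial : ℝ) ≤ y ^ n * Real.exp (-n) := by
    have h3 : (n.factorial : ℝ) ≤ (n:ℝ) ^ n := by exact_mod_cast Nat.factorial_le_pow n
    have h4 : (n:ℝ) ^ n ≤ (y / Real.exp 1) ^ n := by gcongr
    have h5 : (y / Real.exp 1) ^ n = y ^ n * Real.exp (-n) := by
      rw [div_pow, Real.exp_neg, ← Real.exp_nat_mul, mul_one]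
      rfl
    linarith
  have h3 : ‖I‖ ≤ C * Real.exp (-n) := by
    have h4 : y ^ n * ‖I‖ ≤ y ^ n * (C * Real.exp (-n)) := by
      have := mul_le_mul_of_nonneg_left h2 hC
      linarith
    exact le_of_mul_le_mul_left h4 hyn
  have h4 : Real.exp (-n) ≤ Real.exp 1 * Real.exp (-(2 * π / (Real.exp 1 * A)) * k) := by
    rw [← Real.exp_add]
    apply Real.exp_le_exp.2
    have h5 : (2 * π / (Real.exp 1 * A)) * k = y / Real.exp 1 := by
      rw [hy]; field_simp
    have h6 : 1 + -(2 * π / (Real.exp 1 * A)) * (k:ℝ) = 1 - y / Real.exp 1 := by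
      rw [← h5]; ring
    rw [h6]
    linarith
  calc ‖I‖ ≤ C * Real.exp (-n) := h3
    _ ≤ C * (Real.exp 1 * Real.exp (-(2 * π / (Real.exp 1 * A)) * k)) :=
      mul_le_mul_of_nonneg_left h4 hC
    _ = _ := by ring

end Pool.Agent.Helper112.Kohn
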