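import Pool.Agent.Helper112.Kohn.K4

/-! Sanity check (not used): `adj r V` is the formal adjoint of `V` on the torus with respect to the
measure `r dx`. -/

open scoped ContDiff ComplexConjugate Real ComplexOrder
open MeasureTheory

noncomputable section

namespace Pool.Agent.Helper112.Kohn.Spec

theorem conj_contDiff {f : X → ℂ} (hf : ContDiff ℝ 1 f) : ContDiff ℝ 1 (fun x => conj (f x)) :=
  Complex.conjCLE.contDiff.comp hf

theorem pd_mul (i : Fin 5) {f g : X → ℂ} (hf : Differentiable ℝ f) (hg : Differentiable ℝ g)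
    (x : X) : pd i (fun y => f y * g y) x = pd i f x * g x + f x * pd i g x := by
  unfold pd
  rw [fderiv_fun_mul (hf x) (hg x)]
  simp
  ring

theorem pd_conj (i : Fin 5) {f : X → ℂ} (hf : Differentiable ℝ f) (x : X) :
    pd i (fun y => conj (f y)) x = conj (pd i f x) := by
  unfold pd
  have h := (Complex.conjCLE.toContinuousLinearMap.hasFDerivAt (x := f x)).comp x (hf x).hasFDerivAt
  have h2 : HasFDerivAt (fun y => conj (f y))
    (Complex.conjCLE.toContinuousLinearMap.comp (fderiv ℝ f x)) x := h
  rw [h2.fderiv]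
  rfl

theorem adj_spec {r : X → ℝ} (hr : ContDiff ℝ 1 r) (hr0 : ∀ x, r x ≠ 0) (hrp : Per r) {V : VF}
    (hV : ∀ i, ContDiff ℝ 1 (fun x => V x i)) (hVp : Per V) {f g : X → ℂ}
    (hf : ContDiff ℝ 1 f) (hfp : Per f) (hg : ContDiff ℝ 1 g) (hgp : Per g) :
    ∫ x in Set.Icc (0 : X) 1, app V f x * conj (g x) * (r x : ℂ) =
      ∫ x in Set.Icc (0 : X) 1, f x * conj (adj r V g x) * (r x : ℂ) := by
  have hrC : ContDiff ℝ 1 (fun x => (r x : ℂ)) := Complex.ofRealCLM.contDiff.comp hr
  set W : Fin 5 → X → ℂ := fun i x => (r x : ℂ) * V x i * conj (g x) with hW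
  have hWc : ∀ i, ContDiff ℝ 1 (W i) := fun i => (hrC.mul (hV i)).mul (conj_contDiff hg)
  have hWp : ∀ i, Per (W i) := by
    intro i x k
    simp only [hW]
    rw [hrp x k, hVp x k, hgp x k]
  have h1 : ∀ i, ∫ x in Set.Icc (0 : X) 1, pd i (fun y => W i y * f y) x = 0 := fun i =>
    int_pd i ((hWc i).mul hf) (fun x k => by simp only [hWp i x k, hfp x k])
  have hfd : Differentiable ℝ f := hf.differentiable (by norm_num)
  have hWd : ∀ i, Differentiable ℝ (W i) := fun i => (hWc i).differentiable (by norm_num)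
  have h2 : ∀ i x, pd i (fun y => W i y * f y) x = pd i (W i) x * f x + W i x * pd i f x :=
    fun i x => pd_mul i (hWd i) hfd x
  have h3 : ∀ x, app V f x * conj (g x) * (r x : ℂ) = ∑ i, W i x * pd i f x := by
    intro x
    unfold app
    rw [Finset.sum_mul, Finset.sum_mul]
    refine Finset.sum_congr rfl fun i _ => ?_
    simp only [hW]
    ring
  have h4 : ∀ x, f x * conj (adj r V g x) * (r x : ℂ) = -∑ i, pd i (W i) x * f x := by
    intro x
    have h5 : conj (∑ i, pd i (fun y => (r y : ℂ) * conj (V y i) * g y) x) =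
        ∑ i, pd i (W i) x := by
      rw [map_sum]
      refine Finset.sum_congr rfl fun i _ => ?_
      have h6 : Differentiable ℝ (fun y => (r y : ℂ) * conj (V y i) * g y) :=
        ((hrC.mul (conj_contDiff (hV i))).mul hg).differentiable (by norm_num)
      rw [← pd_conj i h6]
      congr 1
      funext y
      simp [hW]
    unfold adj
    rw [map_mul, h5, map_neg, map_inv₀, Complex.conj_ofReal, ← Finset.sum_mul]
    have h7 : (r x : ℂ) ≠ 0 := by exact_mod_cast hr0 x
    field_simp
  have hpc : ∀ i {u : X → ℂ}, ContDiff ℝ 1 u → Continuous (pd i u) := fun i u hu => by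
    have := hu.continuous_fderiv (by norm_num)
    exact this.clm_apply continuous_const
  have hint : ∀ {u : X → ℂ}, Continuous u → IntegrableOn u (Set.Icc (0 : X) 1) := fun hu =>
    hu.continuousOn.integrableOn_compact isCompact_Icc
  have hA : ∫ x in Set.Icc (0 : X) 1, ((∑ i, W i x * pd i f x) + ∑ i, pd i (W i) x * f x) = 0 := by
    have h8 : ∀ x, ((∑ i, W i x * pd i f x) + ∑ i, pd i (W i) x * f x) =
        ∑ i, pd i (fun y => W i y * f y) x := by
      intro x
      rw [← Finset.sum_add_distrib]
      refine Finset.sum_congr rfl fun i _ => ?_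
      rw [h2 i x]; ring
    simp_rw [h8]
    rw [integral_finset_sum]
    · exact Finset.sum_eq_zero fun i _ => h1 i
    · exact fun i _ => hint (hpc i ((hWc i).mul hf))
  rw [integral_add] at hA
  · simp_rw [h3, h4]
    rw [integral_neg]
    exact eq_neg_of_add_eq_zero_left hA
  · exact hint (continuous_finset_sum _ fun i _ => (hWc i).continuous.mul (hpc i hf))
  · exact hint (continuous_finset_sum _ fun i _ => (hpc i (hWc i)).mul hf.continuous)

end Pool.Agent.Helper112.Kohn.Spec
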